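import Mathlib
import Pool.Agent.N466.Pl.MC

/-! Approximate mountain climbing for continuous self-surjections of the unit interval. -/

set_option autoImplicit false

open Set Topology unitInterval

namespace Run7.h149

/-- extension of an interval map to the line -/
noncomputable def ext (v : C(I, I)) (x : ℝ) : ℝ := v (projIcc 0 1 zero_le_one x)

lemma ext_cont (v : C(I, I)) : Continuous (ext v) := by
  unfold ext
  exact continuous_subtype_val.comp (v.continuous.comp continuous_projIcc)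

lemma ext_coe (v : C(I, I)) (t : I) : ext v t = v t := by
  unfold ext
  rw [projIcc_val]

lemma ext_nonneg (v : C(I, I)) (x : ℝ) : 0 ≤ ext v x := (v _).2.1
lemma ext_le_one (v : C(I, I)) (x : ℝ) : ext v x ≤ 1 := (v _).2.2

lemma ext_zero {v : C(I, I)} (h : v 0 = 0) : ext v 0 = 0 := by
  have := ext_coe v 0
  rw [h] at this
  simpa using this

lemma ext_one {v : C(I, I)} (h : v 1 = 1) : ext v 1 = 1 := by
  have := ext_coe v 1
  rw [h] at this
  simpa using this

lemma ext_uc (v : C(I, I)) {ε : ℝ} (hε : 0 < ε) :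
    ∃ δ : ℝ, 0 < δ ∧ ∀ x y : ℝ, |x - y| ≤ δ → |ext v x - ext v y| ≤ ε := by
  have h1 : UniformContinuous v := CompactSpace.uniformContinuous_of_continuous v.continuous
  obtain ⟨δ, hδ, h⟩ := Metric.uniformContinuous_iff.1 h1 ε hε
  refine ⟨δ / 2, by positivity, fun x y hxy => ?_⟩
  have h2 : dist (projIcc (0:ℝ) 1 zero_le_one x) (projIcc (0:ℝ) 1 zero_le_one y) ≤ dist x y := by
    have := LipschitzWith.dist_le_mul
      (LipschitzWith.projIcc (a := (0:ℝ)) (b := 1) (h := zero_le_one)) x y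
    simpa using this
  have h3 := h (lt_of_le_of_lt (h2.trans (by rw [Real.dist_eq]; exact hxy)) (half_lt_self hδ))
  rw [Subtype.dist_eq, Real.dist_eq] at h3
  exact h3.le

/-- the discretised walk -/
noncomputable def walk (v : C(I, I)) (N M : ℕ) (i : ℕ) : ℤ := ⌊(N : ℝ) * ext v ((i : ℝ) / M)⌋

lemma walk_mt {v : C(I, I)} (h0 : v 0 = 0) (h1 : v 1 = 1) {N M : ℕ} (hN : 0 < N) (hM : 0 < M)
    (hM' : ∀ x y : ℝ, |x - y| ≤ 1 / M → |ext v x - ext v y| ≤ 1 / N) :
    Pool.Agent.N466.Pl.Mt (walk v N M) M 0 N where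
  zero := by
    unfold walk
    simp [ext_zero h0]
  last := by
    unfold walk
    have : (M : ℝ) ≠ 0 := by positivity
    rw [div_self this, ext_one h1]
    simp
  low := fun i _ => by
    unfold walk
    apply Int.floor_nonneg.2
    have := ext_nonneg v ((i : ℝ) / M)
    positivity
  up := fun i _ => by
    unfold walk
    have h2 := ext_le_one v ((i : ℝ) / M)
    have : (⌊(N : ℝ) * ext v ((i : ℝ) / M)⌋ : ℝ) ≤ N := by
      refine (Int.floor_le _).trans ?_
      have : (0 : ℝ) ≤ N := by positivity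
      nlinarith
    exact_mod_cast this
  step := fun i _ => by
    unfold walk
    have hN' : (0 : ℝ) < N := by exact_mod_cast hN
    have hMr : (0 : ℝ) < M := by exact_mod_cast hM
    have h2 := hM' (((i + 1 : ℕ) : ℝ) / M) ((i : ℝ) / M) (by
      have e : ((i + 1 : ℕ) : ℝ) / M - (i : ℝ) / M = 1 / M := by
        push_cast
        field_simp
        ring
      rw [e, abs_of_pos (by positivity)])
    set A := (N : ℝ) * ext v (((i + 1 : ℕ) : ℝ) / M) with hA
    set B := (N : ℝ) * ext v ((i : ℝ) / M) with hB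
    have h3 : |A - B| ≤ 1 := by
      rw [hA, hB, ← mul_sub, abs_mul, abs_of_pos hN']
      calc (N : ℝ) * |ext v (((i + 1 : ℕ) : ℝ) / M) - ext v ((i : ℝ) / M)| ≤ N * (1 / N) := by
            gcongr
        _ = 1 := by field_simp
    rw [abs_le] at h3 ⊢
    have a1 := Int.floor_le A
    have a2 := Int.lt_floor_add_one A
    have b1 := Int.floor_le B
    have b2 := Int.lt_floor_add_one B
    constructor
    · have : ((⌊B⌋ : ℝ)) < ⌊A⌋ + 2 := by linarith
      have : ⌊B⌋ < ⌊A⌋ + 2 := by exact_mod_cast this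
      omega
    · have : ((⌊A⌋ : ℝ)) < ⌊B⌋ + 2 := by linarith
      have : ⌊A⌋ < ⌊B⌋ + 2 := by exact_mod_cast this
      omega

/-- the admissible set of pairs -/
def SS (v u : C(I, I)) (δ : ℝ) : Set (ℝ × ℝ) :=
  {p | p.1 ∈ Icc (0:ℝ) 1 ∧ p.2 ∈ Icc (0:ℝ) 1 ∧ |ext v p.1 - ext u p.2| ≤ δ}

/-- climbing for maps fixing both endpoints -/
lemma climb_aux {v u : C(I, I)} (hv0 : v 0 = 0) (hv1 : v 1 = 1) (hu0 : u 0 = 0) (hu1 : u 1 = 1)
    {δ : ℝ} (hδ : 0 < δ) : ∃ φ w : C(I, I), φ 0 = 0 ∧ φ 1 = 1 ∧ w 0 = 0 ∧ w 1 = 1 ∧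
      ∀ t, |(v (φ t) : ℝ) - u (w t)| ≤ δ := by
  obtain ⟨N, hN⟩ := exists_nat_gt (4 / δ)
  have hN0 : (0 : ℝ) < N := lt_trans (by positivity) hN
  have hNn : 0 < N := by exact_mod_cast hN0
  have hNδ : 4 * (1 / (N : ℝ)) ≤ δ := by
    rw [div_lt_iff₀ hδ] at hN
    rw [mul_one_div, div_le_iff₀ hN0]
    linarith
  obtain ⟨δ₁, hδ₁, h₁⟩ := ext_uc v (ε := 1 / N) (by positivity)
  obtain ⟨δ₂, hδ₂, h₂⟩ := ext_uc u (ε := 1 / N) (by positivity)
  obtain ⟨M, hM⟩ := exists_nat_gt (1 / min δ₁ δ₂)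
  have hm : 0 < min δ₁ δ₂ := lt_min hδ₁ hδ₂
  have hM0 : (0 : ℝ) < M := lt_trans (by positivity) hM
  have hMn : 0 < M := by exact_mod_cast hM0
  have hMδ : 1 / (M : ℝ) ≤ min δ₁ δ₂ := by
    rw [div_lt_iff₀ hm] at hM
    rw [div_le_iff₀ hM0]
    linarith
  have hv' : ∀ x y : ℝ, |x - y| ≤ 1 / M → |ext v x - ext v y| ≤ 1 / N := fun x y hxy =>
    h₁ x y (hxy.trans (hMδ.trans (min_le_left _ _)))
  have hu' : ∀ x y : ℝ, |x - y| ≤ 1 / M → |ext u x - ext u y| ≤ 1 / N := fun x y hxy =>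
    h₂ x y (hxy.trans (hMδ.trans (min_le_right _ _)))
  have hreach := Pool.Agent.N466.Pl.climb (walk_mt hv0 hv1 hNn hMn hv')
    (walk_mt hu0 hu1 hNn hMn hu')
  -- pairs of equal height are almost equal in value
  have hclose : ∀ i j : ℕ, walk v N M i = walk u N M j →
      |ext v ((i : ℝ) / M) - ext u ((j : ℝ) / M)| ≤ 1 / N := by
    intro i j hij
    unfold walk at hij
    set A := (N : ℝ) * ext v ((i : ℝ) / M) with hA
    set B := (N : ℝ) * ext u ((j : ℝ) / M) with hB
    have a1 := Int.floor_le A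
    have a2 := Int.lt_floor_add_one A
    have b1 := Int.floor_le B
    have b2 := Int.lt_floor_add_one B
    rw [hij] at a1 a2
    have h3 : |A - B| ≤ 1 := by
      rw [abs_le]
      constructor <;> linarith
    rw [hA, hB, ← mul_sub, abs_mul, abs_of_pos hN0] at h3
    rw [le_div_iff₀ hN0]
    linarith
  have hjoin : ∀ p : ℕ × ℕ, Pool.Agent.N466.Pl.MReach (walk v N M) (walk u N M) M M (0, 0) p →
      JoinedIn (SS v u δ) ((0:ℝ), (0:ℝ)) ((p.1 : ℝ) / M, (p.2 : ℝ) / M) := by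
    intro p hp
    induction hp with
    | refl =>
      have : ((0:ℝ), (0:ℝ)) ∈ SS v u δ := by
        refine ⟨by simp, by simp, ?_⟩
        simp only [ext_zero hv0, ext_zero hu0]
        simpa using hδ.le
      simpa using JoinedIn.refl this
    | @tail b c _ h2 ih =>
      obtain ⟨g1, g2, g3, g4, g5, g6, g7, g8, g9, g10⟩ := h2
      refine ih.trans ?_
      apply JoinedIn.of_segment_subset
      intro z hz
      -- endpoints
      have hb1 : ((b.1 : ℝ) / M) ∈ Icc (0:ℝ) 1 := ⟨by positivity, by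
        rw [div_le_one hM0]; exact_mod_cast g1⟩
      have hb2 : ((b.2 : ℝ) / M) ∈ Icc (0:ℝ) 1 := ⟨by positivity, by
        rw [div_le_one hM0]; exact_mod_cast g3⟩
      have hc1 : ((c.1 : ℝ) / M) ∈ Icc (0:ℝ) 1 := ⟨by positivity, by
        rw [div_le_one hM0]; exact_mod_cast g2⟩
      have hc2 : ((c.2 : ℝ) / M) ∈ Icc (0:ℝ) 1 := ⟨by positivity, by
        rw [div_le_one hM0]; exact_mod_cast g4⟩
      obtain ⟨α, β, hα, hβ, hαβ, rfl⟩ := hz
      have d1 : |((c.1 : ℝ) / M) - (b.1 : ℝ) / M| ≤ 1 / M := by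
        rw [← sub_div, abs_div, abs_of_pos hM0]
        gcongr
        rw [abs_le]
        have e1 : (b.1 : ℝ) ≤ c.1 + 1 := by exact_mod_cast g5
        have e2 : (c.1 : ℝ) ≤ b.1 + 1 := by exact_mod_cast g6
        constructor <;> linarith
      have d2 : |((c.2 : ℝ) / M) - (b.2 : ℝ) / M| ≤ 1 / M := by
        rw [← sub_div, abs_div, abs_of_pos hM0]
        gcongr
        rw [abs_le]
        have e1 : (b.2 : ℝ) ≤ c.2 + 1 := by exact_mod_cast g7
        have e2 : (c.2 : ℝ) ≤ b.2 + 1 := by exact_mod_cast g8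
        constructor <;> linarith
      have hα' : α = 1 - β := by linarith
      subst hα'
      simp only [Prod.smul_mk, Prod.mk_add_mk, smul_eq_mul]
      have k1 : |((1 - β) * ((b.1 : ℝ) / M) + β * ((c.1 : ℝ) / M)) - (b.1 : ℝ) / M| ≤ 1 / M := by
        have : ((1 - β) * ((b.1 : ℝ) / M) + β * ((c.1 : ℝ) / M)) - (b.1 : ℝ) / M
            = β * (((c.1 : ℝ) / M) - (b.1 : ℝ) / M) := by ring
        rw [this, abs_mul, abs_of_nonneg hβ]
        calc β * |((c.1 : ℝ) / M) - (b.1 : ℝ) / M| ≤ 1 * (1 / M) := by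
              gcongr
              linarith
          _ = 1 / M := one_mul _
      have k2 : |((1 - β) * ((b.2 : ℝ) / M) + β * ((c.2 : ℝ) / M)) - (b.2 : ℝ) / M| ≤ 1 / M := by
        have : ((1 - β) * ((b.2 : ℝ) / M) + β * ((c.2 : ℝ) / M)) - (b.2 : ℝ) / M
            = β * (((c.2 : ℝ) / M) - (b.2 : ℝ) / M) := by ring
        rw [this, abs_mul, abs_of_nonneg hβ]
        calc β * |((c.2 : ℝ) / M) - (b.2 : ℝ) / M| ≤ 1 * (1 / M) := by
              gcongr
              linarith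
          _ = 1 / M := one_mul _
      refine ⟨?_, ?_, ?_⟩
      · show (1 - β) * ((b.1 : ℝ) / M) + β * ((c.1 : ℝ) / M) ∈ Icc (0:ℝ) 1
        constructor
        · have := hb1.1; have := hc1.1; positivity
        · have := hb1.2; have := hc1.2; nlinarith
      · show (1 - β) * ((b.2 : ℝ) / M) + β * ((c.2 : ℝ) / M) ∈ Icc (0:ℝ) 1
        constructor
        · have := hb2.1; have := hc2.1; positivity
        · have := hb2.2; have := hc2.2; nlinarith
      · show |ext v ((1 - β) * ((b.1 : ℝ) / M) + β * ((c.1 : ℝ) / M)) -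
          ext u ((1 - β) * ((b.2 : ℝ) / M) + β * ((c.2 : ℝ) / M))| ≤ δ
        have m1 := hv' _ _ k1
        have m2 := hu' _ _ k2
        have m3 := hclose b.1 b.2 g9
        rw [abs_le] at m1 m2 m3 ⊢
        have hN1 : 0 < 1 / (N : ℝ) := by positivity
        constructor <;> linarith [m1.1, m1.2, m2.1, m2.2, m3.1, m3.2]
  have hfin := hjoin (M, M) hreach
  have hMM : ((M : ℝ) / M) = 1 := div_self hM0.ne'
  simp only [hMM] at hfin
  obtain ⟨γ, hγ⟩ := hfin
  refine ⟨⟨fun t => ⟨(γ t).1, (hγ t).1⟩, by fun_prop⟩, ⟨fun t => ⟨(γ t).2, (hγ t).2.1⟩, by fun_prop⟩,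
    ?_, ?_, ?_, ?_, ?_⟩
  · apply Subtype.ext; simp
  · apply Subtype.ext; simp
  · apply Subtype.ext; simp
  · apply Subtype.ext; simp
  · intro t
    have := (hγ t).2.2
    simp only [ContinuousMap.coe_mk]
    rw [← ext_coe v, ← ext_coe u]
    exact this

/-- a continuous self-map of the interval hitting both ends is onto -/
lemma surj_of_ends {v : C(I, I)} {a b : I} (ha : v a = 0) (hb : v b = 1) :
    Function.Surjective v := by
  intro y
  have h : IsPreconnected (univ : Set I) := isPreconnected_univ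
  have := h.intermediate_value (mem_univ a) (mem_univ b) v.continuous.continuousOn
  have hy : y ∈ Icc (v a) (v b) := by rw [ha, hb]; exact ⟨y.2.1, y.2.2⟩
  obtain ⟨x, _, hx⟩ := this hy
  exact ⟨x, hx⟩

/-- a path in the interval through prescribed end points that is onto -/
lemma exists_reparam (a b : I) : ∃ r : C(I, I), r 0 = a ∧ r 1 = b ∧ Function.Surjective r := by
  haveI : PathConnectedSpace I := isPathConnected_iff_pathConnectedSpace.1
    ((convex_Icc (0:ℝ) 1).isPathConnected ⟨0, by simp⟩)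
  have h1 : Joined a (0 : I) := PathConnectedSpace.joined a 0
  have h2 : Joined (0 : I) (1 : I) := PathConnectedSpace.joined 0 1
  have h3 : Joined (1 : I) b := PathConnectedSpace.joined 1 b
  obtain ⟨p1⟩ := h1
  obtain ⟨p2⟩ := h2
  obtain ⟨p3⟩ := h3
  let q := (p1.trans p2).trans p3
  have hr : (0 : I) ∈ range q := by
    rw [Path.trans_range, Path.trans_range]
    exact Or.inl (Or.inl ⟨1, p1.target⟩)
  have hr' : (1 : I) ∈ range q := by
    rw [Path.trans_range, Path.trans_range]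
    exact Or.inr ⟨0, p3.source⟩
  obtain ⟨s, hs⟩ := hr
  obtain ⟨s', hs'⟩ := hr'
  exact ⟨q.toContinuousMap, q.source, q.target, surj_of_ends hs hs'⟩

/-- **Approximate mountain climbing.** -/
theorem climb {v u : C(I, I)} (hv : Function.Surjective v) (hu : Function.Surjective u)
    {δ : ℝ} (hδ : 0 < δ) : ∃ φ w : C(I, I), Function.Surjective φ ∧ Function.Surjective w ∧
      ∀ t, |(v (φ t) : ℝ) - u (w t)| ≤ δ := by
  obtain ⟨a, ha⟩ := hv 0
  obtain ⟨b, hb⟩ := hv 1
  obtain ⟨c, hc⟩ := hu 0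
  obtain ⟨d, hd⟩ := hu 1
  obtain ⟨r, hr0, hr1, hr⟩ := exists_reparam a b
  obtain ⟨s, hs0, hs1, hs⟩ := exists_reparam c d
  obtain ⟨φ, w, h1, h2, h3, h4, h5⟩ := climb_aux (v := v.comp r) (u := u.comp s)
    (by simp [hr0, ha]) (by simp [hr1, hb]) (by simp [hs0, hc]) (by simp [hs1, hd]) hδ
  exact ⟨r.comp φ, s.comp w, hr.comp (surj_of_ends h1 h2), hs.comp (surj_of_ends h3 h4), h5⟩

end Run7.h149
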