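import Mathlib
import Pool.Agent.Run7.h149.Climb

/-! A generic inverse sequence of intervals. -/

set_option autoImplicit false

open Set Topology unitInterval

namespace Run7.h149

/-- continuous self-surjections of the interval -/
abbrev SI : Type := {v : C(I, I) // Function.Surjective v}

/-- composition -/
def SI.comp (v u : SI) : SI := ⟨v.1.comp u.1, v.2.comp u.2⟩

/-- identity -/
def SI.id : SI := ⟨ContinuousMap.id I, Function.surjective_id⟩

instance : Nonempty (SI × SI) := ⟨(SI.id, SI.id)⟩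

/-- a dense sequence of tasks -/
noncomputable def task (j : ℕ) : SI × SI := TopologicalSpace.denseSeq (SI × SI) j

lemma task_dense (v u : SI) {δ : ℝ} (hδ : 0 < δ) : ∃ j, dist v.1 (task j).1.1 < δ ∧
    dist u.1 (task j).2.1 < δ := by
  obtain ⟨j, hj⟩ := (TopologicalSpace.denseRange_denseSeq (SI × SI)).exists_dist_lt (v, u) hδ
  refine ⟨j, ?_, ?_⟩
  · exact lt_of_le_of_lt (le_max_left _ _) hj
  · exact lt_of_le_of_lt (le_max_right _ _) hj

/-- the three components of a task number -/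
def tn (k : ℕ) : ℕ := (Nat.unpair k).1
def tj (k : ℕ) : ℕ := (Nat.unpair (Nat.unpair k).2).1
def tl (k : ℕ) : ℕ := (Nat.unpair (Nat.unpair k).2).2

lemma exists_step (k : ℕ) (S : ℕ → SI) : ∃ φ w : SI, ∀ t : I,
    |(((task (tj k)).1.1 ((S (tn k)).1 (φ.1 t)) : I) : ℝ) - (task (tj k)).2.1 (w.1 t)|
      ≤ 1 / ((tl k : ℝ) + 1) := by
  obtain ⟨φ, w, h1, h2, h3⟩ := climb (v := (task (tj k)).1.1.comp (S (tn k)).1)
    (u := (task (tj k)).2.1) ((task (tj k)).1.2.comp (S (tn k)).2) (task (tj k)).2.2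
    (δ := 1 / ((tl k : ℝ) + 1)) (by positivity)
  exact ⟨⟨φ, h1⟩, ⟨w, h2⟩, h3⟩

/-- the next bonding map -/
noncomputable def phi (k : ℕ) (S : ℕ → SI) : SI := (exists_step k S).choose

lemma phi_spec (k : ℕ) (S : ℕ → SI) : ∃ w : SI, ∀ t : I,
    |(((task (tj k)).1.1 ((S (tn k)).1 ((phi k S).1 t)) : I) : ℝ) - (task (tj k)).2.1 (w.1 t)|
      ≤ 1 / ((tl k : ℝ) + 1) := (exists_step k S).choose_spec

/-- composites from level `k` to level `n` -/
noncomputable def St : ℕ → ℕ → SI
  | 0 => fun _ => SI.id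
  | k + 1 => fun n => if n ≤ k then (St k n).comp (phi k (St k)) else SI.id

/-- the bonding maps -/
noncomputable def gg (k : ℕ) : SI := phi k (St k)

lemma St_self (k : ℕ) : St k k = SI.id := by
  cases k with
  | zero => rfl
  | succ k =>
    show (if k + 1 ≤ k then (St k (k + 1)).comp (phi k (St k)) else SI.id) = SI.id
    rw [if_neg (by omega)]

lemma St_succ {n k : ℕ} (h : n ≤ k) : St (k + 1) n = (St k n).comp (gg k) := by
  show (if n ≤ k then (St k n).comp (phi k (St k)) else SI.id) = _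
  rw [if_pos h]
  rfl

lemma St_gen (n : ℕ) (v u : C(I, I)) (hv : Function.Surjective v) (hu : Function.Surjective u)
    {δ : ℝ} (hδ : 0 < δ) : ∃ k, n ≤ k ∧ ∃ w : C(I, I), Function.Surjective w ∧
      ∀ t, |(v ((St (k + 1) n).1 t) : ℝ) - u (w t)| ≤ δ := by
  obtain ⟨j, hj1, hj2⟩ := task_dense ⟨v, hv⟩ ⟨u, hu⟩ (show 0 < δ / 3 by positivity)
  obtain ⟨l, hl⟩ := exists_nat_one_div_lt (show 0 < δ / 3 by positivity)
  set k := Nat.pair n (Nat.pair j l) with hk
  have e1 : tn k = n := by simp [tn, hk]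
  have e2 : tj k = j := by simp [tj, hk]
  have e3 : tl k = l := by simp [tl, hk]
  have hnk : n ≤ k := by
    have := Nat.unpair_left_le k
    rw [show (Nat.unpair k).1 = n from e1] at this
    exact this
  obtain ⟨w, hw⟩ := phi_spec k (St k)
  rw [e1, e2, e3] at hw
  refine ⟨k, hnk, w.1, w.2, fun t => ?_⟩
  have h1 := hw t
  rw [St_succ hnk]
  show |(v ((St k n).1 ((gg k).1 t)) : ℝ) - u (w.1 t)| ≤ δ
  have h2 : dist (v ((St k n).1 ((gg k).1 t))) ((task j).1.1 ((St k n).1 ((gg k).1 t))) < δ / 3 :=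
    lt_of_le_of_lt (ContinuousMap.dist_apply_le_dist _) hj1
  have h3 : dist (u (w.1 t)) ((task j).2.1 (w.1 t)) < δ / 3 :=
    lt_of_le_of_lt (ContinuousMap.dist_apply_le_dist _) hj2
  rw [Subtype.dist_eq, Real.dist_eq] at h2 h3
  have h4 : |(((task j).1.1 ((St k n).1 ((gg k).1 t)) : I) : ℝ) - (task j).2.1 (w.1 t)|
      ≤ 1 / ((l : ℝ) + 1) := h1
  rw [abs_lt] at h2 h3
  rw [abs_le] at h4 ⊢
  constructor <;> linarith [h2.1, h2.2, h3.1, h3.2, h4.1, h4.2]

/-- The generic inverse limit: the pseudo-arc. -/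
def PA : Type := {x : ℕ → I // ∀ n, (gg n).1 (x (n + 1)) = x n}

noncomputable instance : TopologicalSpace PA :=
  inferInstanceAs (TopologicalSpace {x : ℕ → I // ∀ n, (gg n).1 (x (n + 1)) = x n})

lemma isClosed_PA : IsClosed {x : ℕ → I | ∀ n, (gg n).1 (x (n + 1)) = x n} := by
  rw [Set.ofPred_forall]
  refine isClosed_iInter fun n => ?_
  exact isClosed_eq (by fun_prop) (by fun_prop)

instance : CompactSpace PA := isCompact_iff_compactSpace.1 isClosed_PA.isCompact

instance : T2Space PA :=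
  inferInstanceAs (T2Space {x : ℕ → I // ∀ n, (gg n).1 (x (n + 1)) = x n})

instance : SecondCountableTopology PA :=
  TopologicalSpace.Subtype.secondCountableTopology
    {x : ℕ → I | ∀ n, (gg n).1 (x (n + 1)) = x n}

instance : TopologicalSpace.MetrizableSpace PA :=
  TopologicalSpace.metrizableSpace_of_t3_secondCountable PA

noncomputable instance : MetricSpace PA := TopologicalSpace.metrizableSpaceMetric PA

/-- the projections -/
def pr (n : ℕ) : C(PA, I) := ⟨fun x => x.1 n, (continuous_apply n).comp continuous_subtype_val⟩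

lemma pr_apply (n : ℕ) (x : PA) : pr n x = x.1 n := rfl

lemma pr_St {n k : ℕ} (h : n ≤ k) (x : PA) : (St k n).1 (pr k x) = pr n x := by
  induction k, h using Nat.le_induction with
  | base => rw [St_self]; rfl
  | succ k hk ih =>
    rw [St_succ hk]
    show (St k n).1 ((gg k).1 (x.1 (k + 1))) = _
    rw [x.2 k]
    exact ih

lemma pr_sep {x y : PA} (h : ∀ n, pr n x = pr n y) : x = y := Subtype.ext (funext h)

lemma pr_mono {n m : ℕ} (h : n ≤ m) {x y : PA} (hxy : pr m x = pr m y) : pr n x = pr n y := by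
  rw [← pr_St h, ← pr_St h, hxy]

/-- upward choice of a thread -/
noncomputable def up (n : ℕ) (t : I) : ℕ → I
  | 0 => t
  | i + 1 => ((gg (n + i)).2 (up n t i)).choose

lemma up_spec (n : ℕ) (t : I) (i : ℕ) : (gg (n + i)).1 (up n t (i + 1)) = up n t i :=
  ((gg (n + i)).2 (up n t i)).choose_spec

lemma St_pred {n j : ℕ} (h : j + 1 ≤ n) (t : I) : (gg j).1 ((St n (j + 1)).1 t) = (St n j).1 t := by
  induction n, h using Nat.le_induction generalizing t with
  | base =>
    rw [St_self, St_succ le_rfl, St_self]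
    rfl
  | succ n hn ih =>
    rw [St_succ hn, St_succ (show j ≤ n by omega)]
    exact ih _

lemma pr_surj (n : ℕ) : Function.Surjective (pr n) := by
  intro t
  refine ⟨⟨fun j => if j ≤ n then (St n j).1 t else up n t (j - n), ?_⟩, ?_⟩
  · intro j
    show (gg j).1 (if j + 1 ≤ n then (St n (j + 1)).1 t else up n t (j + 1 - n)) =
      (if j ≤ n then (St n j).1 t else up n t (j - n))
    rcases Nat.lt_trichotomy j n with h | h | h
    · rw [if_pos (by omega), if_pos (by omega)]
      exact St_pred (by omega) t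
    · subst h
      rw [if_neg (by omega), if_pos le_rfl, St_self]
      have := up_spec j t 0
      rw [show j + 1 - j = 0 + 1 by omega]
      exact this
    · rw [if_neg (by omega), if_neg (by omega)]
      obtain ⟨i, rfl⟩ : ∃ i, j = n + i := ⟨j - n, by omega⟩
      have := up_spec n t i
      rw [show n + i + 1 - n = i + 1 by omega, show n + i - n = i by omega]
      exact this
  · show (if n ≤ n then (St n n).1 t else up n t (n - n)) = t
    rw [if_pos le_rfl, St_self]
    rfl

instance : Nontrivial PA := by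
  obtain ⟨x, hx⟩ := pr_surj 0 0
  obtain ⟨y, hy⟩ := pr_surj 0 1
  refine ⟨x, y, fun h => ?_⟩
  rw [h, hy] at hx
  exact one_ne_zero hx

/-- Stone-Weierstrass for a directed separating sequence of maps. -/
lemma sw {Y Z : Type} [TopologicalSpace Y] [CompactSpace Y] [MetricSpace Z]
    (ρ : ℕ → C(Y, Z)) (hdir : ∀ n m, n ≤ m → ∃ h : C(Z, Z), ρ n = h.comp (ρ m))
    (hsep : ∀ x y : Y, x ≠ y → ∃ n, ρ n x ≠ ρ n y) (f : C(Y, ℝ)) {δ : ℝ} (hδ : 0 < δ) (N : ℕ) :
    ∃ n, N ≤ n ∧ ∃ F : C(Z, ℝ), ∀ y, |F (ρ n y) - f y| < δ := by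
  let A : Subalgebra ℝ C(Y, ℝ) :=
    { carrier := {f | ∃ n, ∃ F : C(Z, ℝ), f = F.comp (ρ n)}
      mul_mem' := by
        rintro _ _ ⟨n, F, rfl⟩ ⟨m, G, rfl⟩
        obtain ⟨h1, e1⟩ := hdir n (max n m) (le_max_left _ _)
        obtain ⟨h2, e2⟩ := hdir m (max n m) (le_max_right _ _)
        refine ⟨max n m, (F.comp h1) * (G.comp h2), ?_⟩
        ext y
        rw [e1, e2]
        rfl
      add_mem' := by
        rintro _ _ ⟨n, F, rfl⟩ ⟨m, G, rfl⟩
        obtain ⟨h1, e1⟩ := hdir n (max n m) (le_max_left _ _)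
        obtain ⟨h2, e2⟩ := hdir m (max n m) (le_max_right _ _)
        refine ⟨max n m, (F.comp h1) + (G.comp h2), ?_⟩
        ext y
        rw [e1, e2]
        rfl
      algebraMap_mem' := by
        intro r
        exact ⟨0, algebraMap ℝ C(Z, ℝ) r, by ext y; rfl⟩ }
  have hA : A.SeparatesPoints := by
    intro x y hxy
    obtain ⟨n, hn⟩ := hsep x y hxy
    refine ⟨fun z => dist (ρ n z) (ρ n x), ⟨⟨fun z => dist (ρ n z) (ρ n x), by fun_prop⟩,
      ⟨n, ⟨fun z => dist z (ρ n x), by fun_prop⟩, rfl⟩, rfl⟩, ?_⟩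
    simp only [dist_self]
    intro h0
    exact hn (dist_eq_zero.1 h0.symm).symm
  obtain ⟨⟨g, hg⟩, hfg⟩ :=
    ContinuousMap.exists_mem_subalgebra_near_continuous_of_separatesPoints A hA f f.continuous δ hδ
  obtain ⟨n, F, rfl⟩ := hg
  obtain ⟨h, e⟩ := hdir n (max n N) (le_max_left _ _)
  refine ⟨max n N, le_max_right _ _, F.comp h, fun y => ?_⟩
  have h1 : ‖F (ρ n y) - f y‖ < δ := hfg y
  have h2 : ρ n y = h (ρ (max n N) y) := DFunLike.congr_fun e y
  rw [h2, Real.norm_eq_abs] at h1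
  exact h1

lemma pr_sw (f : C(PA, ℝ)) {δ : ℝ} (hδ : 0 < δ) (N : ℕ) :
    ∃ n, N ≤ n ∧ ∃ F : C(I, ℝ), ∀ y, |F (pr n y) - f y| < δ := by
  refine sw pr (fun n m h => ⟨(St m n).1, ?_⟩) (fun x y hxy => ?_) f hδ N
  · ext y
    rw [ContinuousMap.comp_apply, pr_St h]
  · by_contra hcon
    push Not at hcon
    exact hxy (pr_sep hcon)

instance : ConnectedSpace PA := by
  have hpre : PreconnectedSpace PA := by
    rw [preconnectedSpace_iff_clopen]
    intro s hs
    by_contra hcon
    push Not at hcon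
    obtain ⟨h1, h2⟩ := hcon
    have hsn : s.Nonempty := h1
    obtain ⟨y, hy⟩ := (ne_univ_iff_exists_notMem s).1 h2
    obtain ⟨x, hx⟩ := hsn
    classical
    let f : C(PA, ℝ) := ⟨fun z => if z ∈ s then 1 else 0, by
      refine continuous_const.if ?_ continuous_const
      intro a ha
      rw [show {x | x ∈ s} = s from rfl, hs.frontier_eq] at ha
      exact absurd ha (notMem_empty a)⟩
    obtain ⟨n, -, F, hF⟩ := pr_sw f (show (0:ℝ) < 1 / 4 by norm_num) 0
    have hfx : f x = 1 := if_pos hx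
    have hfy : f y = 0 := if_neg hy
    have hFx := hF x
    have hFy := hF y
    rw [hfx, abs_lt] at hFx
    rw [hfy, abs_lt] at hFy
    have h := (isPreconnected_univ (α := I)).intermediate_value (mem_univ (pr n y))
      (mem_univ (pr n x)) F.continuous.continuousOn
    obtain ⟨t, -, ht⟩ := h (show (1:ℝ)/2 ∈ Icc (F (pr n y)) (F (pr n x)) from
      ⟨by linarith [hFy.2], by linarith [hFx.1]⟩)
    obtain ⟨z, rfl⟩ := pr_surj n t
    have hz := hF z
    rw [ht] at hz
    by_cases hzs : z ∈ s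
    · have : f z = 1 := if_pos hzs
      rw [this] at hz
      norm_num [abs_lt] at hz
    · have : f z = 0 := if_neg hzs
      rw [this] at hz
      norm_num [abs_lt] at hz
  exact { toNonempty := inferInstance }

end Run7.h149
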