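import Mathlib
import Pool.Agent.Run7.h149.Gen

/-! Lifting through surjections and nestedness of subcontinua. -/

set_option autoImplicit false

open Set Topology unitInterval

namespace Run7.h149

/-- stretching the interval `[a, 1 - a]` to `[0, 1]` -/
noncomputable def TT (a : ℝ) : C(ℝ, I) :=
  ⟨fun s => projIcc 0 1 zero_le_one ((s - a) / (1 - 2 * a)), by
    refine continuous_projIcc.comp ?_
    exact (continuous_id.sub continuous_const).div_const _⟩

lemma TT_zero {a s : ℝ} (ha : a ≤ 1 / 4) (hs : s ≤ a) : TT a s = 0 := by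
  have h1 : (s - a) / (1 - 2 * a) ≤ 0 := div_nonpos_of_nonpos_of_nonneg (by linarith) (by linarith)
  show projIcc 0 1 zero_le_one ((s - a) / (1 - 2 * a)) = 0
  rw [projIcc_of_le_left _ h1]
  rfl

lemma TT_one {a s : ℝ} (ha : a ≤ 1 / 4) (hs : 1 - a ≤ s) : TT a s = 1 := by
  have h1 : 1 ≤ (s - a) / (1 - 2 * a) := by
    rw [le_div_iff₀ (by linarith)]
    linarith
  show projIcc 0 1 zero_le_one ((s - a) / (1 - 2 * a)) = 1
  rw [projIcc_of_right_le _ h1]
  rfl

lemma TT_near {a s : ℝ} (ha0 : 0 ≤ a) (ha : a ≤ 1 / 4) (h0 : -a ≤ s) (h1 : s ≤ 1 + a) :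
    |(TT a s : ℝ) - s| ≤ a := by
  rcases le_total s a with h | h
  · rw [TT_zero ha h, abs_le]
    simp only [Icc.coe_zero]
    constructor <;> linarith
  rcases le_total (1 - a) s with h' | h'
  · rw [TT_one ha h', abs_le]
    simp only [Icc.coe_one]
    constructor <;> linarith
  have hpos : 0 < 1 - 2 * a := by linarith
  have hm : (s - a) / (1 - 2 * a) ∈ Icc (0:ℝ) 1 := by
    constructor
    · exact div_nonneg (by linarith) hpos.le
    · rw [div_le_one hpos]; linarith
  have e : (TT a s : ℝ) = (s - a) / (1 - 2 * a) := by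
    show ((projIcc 0 1 zero_le_one ((s - a) / (1 - 2 * a)) : I) : ℝ) = _
    rw [projIcc_of_mem _ hm]
  rw [e]
  have e2 : (s - a) / (1 - 2 * a) - s = a * (2 * s - 1) / (1 - 2 * a) := by
    rw [eq_div_iff hpos.ne', sub_mul, div_mul_cancel₀ _ hpos.ne']
    ring
  rw [e2, abs_div, abs_of_pos hpos, div_le_iff₀ hpos, abs_mul, abs_of_nonneg ha0]
  have : |2 * s - 1| ≤ 1 - 2 * a := by
    rw [abs_le]
    constructor <;> linarith
  gcongr

/-- **Lifting property** of the generic inverse limit. -/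
theorem lift (f : C(PA, I)) (hf : Function.Surjective f) (u : C(I, I))
    (hu : Function.Surjective u) {δ : ℝ} (hδ : 0 < δ) :
    ∃ f' : C(PA, I), Function.Surjective f' ∧ ∀ x, |(u (f' x) : ℝ) - f x| ≤ δ := by
  set a : ℝ := min (δ / 8) (1 / 4) with ha
  have ha0 : 0 < a := by positivity
  have ha1 : a ≤ 1 / 4 := min_le_right _ _
  have ha2 : a ≤ δ / 8 := min_le_left _ _
  obtain ⟨n, -, F, hF⟩ := pr_sw ⟨fun x => (f x : ℝ), by fun_prop⟩ ha0 0
  simp only [ContinuousMap.coe_mk] at hF
  set v : C(I, I) := (TT a).comp F with hv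
  have hvs : Function.Surjective v := by
    obtain ⟨y0, hy0⟩ := hf 0
    obtain ⟨y1, hy1⟩ := hf 1
    have h0 := hF y0
    have h1 := hF y1
    rw [hy0, abs_lt] at h0
    rw [hy1, abs_lt] at h1
    simp only [Icc.coe_zero, Icc.coe_one] at h0 h1
    refine surj_of_ends (a := pr n y0) (b := pr n y1) ?_ ?_
    · exact TT_zero ha1 (by linarith [h0.2])
    · exact TT_one ha1 (by linarith [h1.1])
  obtain ⟨k, hnk, w, hw, hvw⟩ := St_gen n v u hvs hu (show 0 < δ / 2 by positivity)
  refine ⟨w.comp (pr (k + 1)), hw.comp (pr_surj (k + 1)), fun x => ?_⟩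
  have h1 := hvw (pr (k + 1) x)
  rw [pr_St (show n ≤ k + 1 by omega)] at h1
  have h2 := hF x
  rw [abs_lt] at h2
  have h3 : |(v (pr n x) : ℝ) - F (pr n x)| ≤ a := by
    refine TT_near ha0.le ha1 ?_ ?_
    · have := (f x).2.1
      linarith [h2.1]
    · have := (f x).2.2
      linarith [h2.2]
  show |(u (w (pr (k + 1) x)) : ℝ) - f x| ≤ δ
  rw [abs_le] at h1 h3 ⊢
  constructor <;> linarith [h1.1, h1.2, h2.1, h2.2, h3.1, h3.2]

/-- the zigzag -/
noncomputable def zz (t : ℝ) : ℝ := max (min (9 / 4 * t) (5 / 4 - 3 / 2 * t)) (9 / 4 * t - 5 / 4)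

lemma zz_mem {t : ℝ} (h0 : 0 ≤ t) (h1 : t ≤ 1) : zz t ∈ Icc (0:ℝ) 1 := by
  unfold zz
  constructor
  · rcases le_total t (2 / 3) with h | h
    · refine le_trans ?_ (le_max_left _ _)
      exact le_min (by linarith) (by linarith)
    · refine le_trans ?_ (le_max_right _ _)
      linarith
  · refine max_le ?_ (by linarith)
    rcases le_total t (1 / 3) with h | h
    · exact (min_le_left _ _).trans (by linarith)
    · exact (min_le_right _ _).trans (by linarith)

lemma zz_low {t : ℝ} (h : 1 / 3 ≤ t) : 1 / 4 ≤ zz t := by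
  unfold zz
  rcases le_total t (2 / 3) with h' | h'
  · refine le_trans ?_ (le_max_left _ _)
    exact le_min (by linarith) (by linarith)
  · refine le_trans ?_ (le_max_right _ _)
    linarith

lemma zz_up {t : ℝ} (h : t ≤ 2 / 3) : zz t ≤ 3 / 4 := by
  unfold zz
  refine max_le ?_ (by linarith)
  rcases le_total t (1 / 3) with h | h
  · exact (min_le_left _ _).trans (by linarith)
  · exact (min_le_right _ _).trans (by linarith)

lemma zz_third : zz (1 / 3) = 3 / 4 := by unfold zz; norm_num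
lemma zz_two_third : zz (2 / 3) = 1 / 4 := by unfold zz; norm_num

/-- the zigzag as an interval map -/
noncomputable def zig : C(I, I) := ⟨fun t => ⟨zz t, zz_mem t.2.1 t.2.2⟩, by
  unfold zz; fun_prop⟩

lemma zig_surj : Function.Surjective zig := by
  refine surj_of_ends (a := 0) (b := 1) ?_ ?_
  · apply Subtype.ext
    show zz ((0 : I) : ℝ) = ((0 : I) : ℝ)
    unfold zz
    norm_num
  · apply Subtype.ext
    show zz ((1 : I) : ℝ) = ((1 : I) : ℝ)
    unfold zz
    norm_num

lemma zig_apply (t : I) : (zig t : ℝ) = zz t := rfl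

/-- subcontinua of the pseudo-arc with a common point are nested -/
theorem nested {K L : Set PA} (hK : IsClosed K) (hL : IsClosed L) (cK : IsPreconnected K)
    (cL : IsPreconnected L) {p : PA} (pK : p ∈ K) (pL : p ∈ L) : K ⊆ L ∨ L ⊆ K := by
  by_contra hcon
  push Not at hcon
  obtain ⟨h1, h2⟩ := hcon
  obtain ⟨x, hxK, hxL⟩ := not_subset.1 h1
  obtain ⟨y, hyL, hyK⟩ := not_subset.1 h2
  obtain ⟨f₁, h₁0, h₁1, h₁⟩ := exists_continuous_zero_one_of_isClosed (isClosed_singleton (x := x))
    hL (by rw [disjoint_singleton_left]; exact hxL)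
  obtain ⟨f₂, h₂0, h₂1, h₂⟩ := exists_continuous_zero_one_of_isClosed hK
    (isClosed_singleton (x := y)) (by rw [disjoint_singleton_right]; exact hyK)
  let f : C(PA, I) := ⟨fun z => ⟨(f₁ z + f₂ z) / 2, by
      have a1 := (h₁ z).1; have a2 := (h₁ z).2
      have b1 := (h₂ z).1; have b2 := (h₂ z).2
      constructor <;> linarith⟩, by fun_prop⟩
  have hfe : ∀ z, (f z : ℝ) = (f₁ z + f₂ z) / 2 := fun z => rfl
  have hfx : f x = 0 := by
    apply Subtype.ext
    rw [hfe, h₁0 rfl, h₂0 hxK]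
    simp
  have hfy : f y = 1 := by
    apply Subtype.ext
    rw [hfe, h₁1 hyL, h₂1 rfl]
    norm_num
  have hfs : Function.Surjective f := by
    intro t
    have h := (isPreconnected_univ (α := PA)).intermediate_value (mem_univ x) (mem_univ y)
      f.continuous.continuousOn
    rw [hfx, hfy] at h
    obtain ⟨z, -, hz⟩ := h (show t ∈ Icc (0 : I) 1 from ⟨t.2.1, t.2.2⟩)
    exact ⟨z, hz⟩
  have hfK : ∀ z ∈ K, (f z : ℝ) ≤ 1 / 2 := by
    intro z hz
    rw [hfe, h₂0 hz]
    have := (h₁ z).2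
    simp only [Pi.zero_apply]
    linarith
  have hfL : ∀ z ∈ L, 1 / 2 ≤ (f z : ℝ) := by
    intro z hz
    rw [hfe, h₁1 hz]
    have := (h₂ z).1
    simp only [Pi.one_apply]
    linarith
  obtain ⟨g, -, hg⟩ := lift f hfs zig zig_surj (show (0:ℝ) < 1 / 16 by norm_num)
  have hgc : Continuous fun z => (g z : ℝ) := by fun_prop
  -- `g < 1/3` on `K`
  have k1 : ∀ z ∈ K, (g z : ℝ) < 1 / 3 := by
    intro z hz
    by_contra hcon
    push Not at hcon
    have hx' : (g x : ℝ) < 1 / 3 := by
      by_contra hc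
      push Not at hc
      have h3 := zz_low hc
      have h4 := hg x
      rw [hfx, zig_apply, abs_le] at h4
      simp only [Icc.coe_zero] at h4
      linarith [h4.2]
    obtain ⟨w, hwK, hw⟩ := cK.intermediate_value hxK hz hgc.continuousOn ⟨hx'.le, hcon⟩
    have h4 := hg w
    simp only at hw
    rw [zig_apply, hw, zz_third, abs_le] at h4
    linarith [h4.2, hfK w hwK]
  have k2 : ∀ z ∈ L, 2 / 3 < (g z : ℝ) := by
    intro z hz
    by_contra hcon
    push Not at hcon
    have hy' : 2 / 3 < (g y : ℝ) := by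
      by_contra hc
      push Not at hc
      have h3 := zz_up hc
      have h4 := hg y
      rw [hfy, zig_apply, abs_le] at h4
      simp only [Icc.coe_one] at h4
      linarith [h4.1]
    obtain ⟨w, hwL, hw⟩ := cL.intermediate_value hz hyL hgc.continuousOn ⟨hcon, hy'.le⟩
    have h4 := hg w
    simp only at hw
    rw [zig_apply, hw, zz_two_third, abs_le] at h4
    linarith [h4.1, hfL w hwL]
  have h5 := k1 p pK
  have h6 := k2 p pL
  linarith

end Run7.h149
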