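import Mathlib

/-! Folding a real function at a point at which all subcontinua are nested. -/

set_option autoImplicit false

open Set Topology

namespace Run7.h149

variable {X : Type} [TopologicalSpace X] [CompactSpace X] [T2Space X]

/-- component of `p` in a sublevel set -/
def cc (f : X → ℝ) (b : ℝ) (p : X) : Set X := connectedComponentIn {x | f x ≤ b} p

omit [CompactSpace X] [T2Space X] in
lemma isClosed_cIn {F : Set X} (hF : IsClosed F) (p : X) : IsClosed (connectedComponentIn F p) := by
  by_cases hp : p ∈ F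
  · apply isClosed_of_closure_subset
    apply IsPreconnected.subset_connectedComponentIn
    · exact isPreconnected_connectedComponentIn.closure
    · exact subset_closure (mem_connectedComponentIn hp)
    · exact closure_minimal (connectedComponentIn_subset _ _) hF
  · rw [connectedComponentIn_eq_empty hp]
    exact isClosed_empty

omit [CompactSpace X] [T2Space X] in
lemma isClosed_cc {f : X → ℝ} (hf : Continuous f) {b : ℝ} {p : X} : IsClosed (cc f b p) :=
  isClosed_cIn (isClosed_le hf continuous_const) p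

omit [CompactSpace X] [T2Space X] in
lemma mem_cc {f : X → ℝ} {b : ℝ} {p : X} (h : f p ≤ b) : p ∈ cc f b p :=
  mem_connectedComponentIn h

omit [CompactSpace X] [T2Space X] in
lemma cc_sub {f : X → ℝ} {b : ℝ} {p x : X} (hx : x ∈ cc f b p) : f x ≤ b := by
  have : x ∈ {x | f x ≤ b} := connectedComponentIn_subset _ _ hx
  exact this

/-- clopen separation relative to a closed set -/
lemma sep_closed {F : Set X} (hF : IsClosed F) {p : X} (hp : p ∈ F) {O : Set X} (hO : IsOpen O)
    (h : connectedComponentIn F p ⊆ O) :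
    ∃ U, IsClosed U ∧ p ∈ U ∧ U ⊆ O ∧ U ⊆ F ∧ IsClosed (F \ U) ∧ connectedComponentIn F p ⊆ U := by
  have : CompactSpace F := isCompact_iff_compactSpace.1 hF.isCompact
  rw [connectedComponentIn_eq_image hp] at h ⊢
  have h1 : connectedComponent (⟨p, hp⟩ : F) ⊆ (Subtype.val ⁻¹' O : Set F) := by
    intro z hz
    exact h ⟨z, hz, rfl⟩
  rw [connectedComponent_eq_iInter_isClopen] at h1
  have hO' : IsOpen (Subtype.val ⁻¹' O : Set F) := hO.preimage continuous_subtype_val
  have hne : Nonempty {s : Set F // IsClopen s ∧ (⟨p, hp⟩ : F) ∈ s} :=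
    ⟨⟨univ, isClopen_univ, trivial⟩⟩
  obtain ⟨s, hs⟩ := exists_subset_nhds_of_isCompact' (ι := {s : Set F // IsClopen s ∧ ⟨p, hp⟩ ∈ s})
    (V := fun s => s.1) (by
      intro a b
      exact ⟨⟨a.1 ∩ b.1, a.2.1.inter b.2.1, a.2.2, b.2.2⟩, inter_subset_left, inter_subset_right⟩)
    (fun s => s.2.1.1.isCompact) (fun s => s.2.1.1) (U := Subtype.val ⁻¹' O)
    (fun x hx => hO'.mem_nhds (h1 hx))
  refine ⟨Subtype.val '' s.1, hF.isClosedEmbedding_subtypeVal.isClosedMap _ s.2.1.1,
    ⟨_, s.2.2, rfl⟩, ?_, ?_, ?_, ?_⟩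
  · rintro _ ⟨z, hz, rfl⟩
    exact hs hz
  · rintro _ ⟨z, hz, rfl⟩
    exact z.2
  · have : F \ Subtype.val '' s.1 = Subtype.val '' s.1ᶜ := by
      ext x
      constructor
      · rintro ⟨hx, hx'⟩
        exact ⟨⟨x, hx⟩, fun h => hx' ⟨_, h, rfl⟩, rfl⟩
      · rintro ⟨z, hz, rfl⟩
        refine ⟨z.2, ?_⟩
        rintro ⟨w, hw, hwz⟩
        exact hz (by rwa [Subtype.ext hwz] at hw)
    rw [this]
    exact hF.isClosedEmbedding_subtypeVal.isClosedMap _ s.2.1.compl.1
  · apply image_mono
    exact s.2.1.connectedComponent_subset s.2.2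

/-- clopen separation with a little room above the level -/
lemma sep_level {f : X → ℝ} (hf : Continuous f) {p : X} {b : ℝ} (hp : f p ≤ b) {O : Set X}
    (hO : IsOpen O) (h : cc f b p ⊆ O) {b' : ℝ} (hb : b < b') :
    ∃ s, b < s ∧ s < b' ∧ ∃ W, IsOpen W ∧ W ⊆ O ∧ cc f b p ⊆ W ∧ IsClosed (W ∩ {x | f x ≤ s}) := by
  obtain ⟨U, hU, hpU, hUO, hUF, hUc, hcU⟩ := sep_closed (isClosed_le hf continuous_const) hp hO h
  have hdis : Disjoint U ({x | f x ≤ b} \ U) := disjoint_sdiff_right
  obtain ⟨O1, O2, hO1, hO2, hUO1, hUO2, hd⟩ := normal_separation hU hUc hdis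
  -- a level slightly above `b`
  obtain ⟨m, hbm, hm⟩ : ∃ m, b < m ∧ ∀ x, f x < m → x ∈ (O1 ∩ O) ∪ O2 := by
    have hcl : IsCompact ((O1 ∩ O) ∪ O2)ᶜ := ((hO1.inter hO).union hO2).isClosed_compl.isCompact
    rcases (((O1 ∩ O) ∪ O2)ᶜ).eq_empty_or_nonempty with he | hne
    · refine ⟨b + 1, by linarith, fun x _ => ?_⟩
      rw [compl_empty_iff] at he
      rw [he]
      trivial
    · obtain ⟨z, hz, hmin⟩ := hcl.exists_isMinOn hne hf.continuousOn
      refine ⟨f z, ?_, fun x hx => ?_⟩
      · by_contra hcon
        push Not at hcon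
        apply hz
        by_cases hzU : z ∈ U
        · exact Or.inl ⟨hUO1 hzU, hUO hzU⟩
        · exact Or.inr (hUO2 ⟨hcon, hzU⟩)
      · by_contra hcon
        have := hmin hcon
        simp only [mem_ofPred_eq] at this
        linarith
  set s := (b + min m b') / 2 with hs
  have hlt : b < min m b' := lt_min hbm hb
  have hs1 : b < s := by rw [hs]; linarith
  have hs2 : s < min m b' := by rw [hs]; linarith
  refine ⟨s, hs1, lt_of_lt_of_le hs2 (min_le_right _ _), O1 ∩ O, hO1.inter hO, inter_subset_right,
    ?_, ?_⟩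
  · intro x hx
    have := hcU hx
    exact ⟨hUO1 this, hUO this⟩
  · have : (O1 ∩ O) ∩ {x | f x ≤ s} = {x | f x ≤ s} \ O2 := by
      ext x
      constructor
      · rintro ⟨⟨h1, h2⟩, h3⟩
        exact ⟨h3, fun h4 => Set.disjoint_left.1 hd h1 h4⟩
      · rintro ⟨h3, h4⟩
        have h5 : f x < m := lt_of_le_of_lt h3 (lt_of_lt_of_le hs2 (min_le_left _ _))
        rcases hm x h5 with h6 | h6
        · exact ⟨h6, h3⟩
        · exact absurd h6 h4
    rw [this, Set.sdiff_eq]
    exact (isClosed_le hf continuous_const).inter hO2.isClosed_compl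

/-- all closed connected sets through `p` are nested -/
def Nested (X : Type) [TopologicalSpace X] (p : X) : Prop :=
  ∀ K L : Set X, IsClosed K → IsClosed L → IsPreconnected K → IsPreconnected L → p ∈ K → p ∈ L →
    K ⊆ L ∨ L ⊆ K

/-- the folding lemma -/
lemma fold {p : X} (hN : Nested X p) {δ : ℝ} (hδ : 0 < δ) : ∀ (n : ℕ) (f : X → ℝ),
    Continuous f → ∀ a b : ℝ, a ≤ f p → f p ≤ b → b - a ≤ n * (δ / 4) → (∀ x ∈ cc f b p, a ≤ f x) →
    ∀ O : Set X, IsOpen O → cc f b p ⊆ O → ∀ b' : ℝ, b < b' →
    ∃ s, b < s ∧ s < b' ∧ ∃ W, IsOpen W ∧ W ⊆ O ∧ cc f b p ⊆ W ∧ IsClosed (W ∩ {x | f x ≤ s}) ∧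
      ∃ (F : X → ℝ) (v : ℝ → ℝ) (M : ℝ), Continuous v ∧ ContinuousOn F (W ∩ {x | f x ≤ s}) ∧
        F p = 0 ∧ (∀ x ∈ W ∩ {x | f x ≤ s}, 0 ≤ F x ∧ F x ≤ M) ∧
        (∀ x ∈ W ∩ {x | f x ≤ s}, f x = s → F x = M) ∧ v M = s ∧
        ∀ x ∈ W ∩ {x | f x ≤ s}, |v (F x) - f x| ≤ δ := by
  intro n
  induction n with
  | zero =>
    intro f hf a b hap hpb hab hK O hO hcO b' hb'
    -- the direct case
    have hab' : b ≤ a := by simpa using hab
    obtain ⟨s, hs1, hs2, W, hW1, hW2, hW3, hW4⟩ := sep_level hf hpb
      (hO.inter (isOpen_lt continuous_const hf (f := fun _ => a - δ / 2))) (fun x hx =>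
        ⟨hcO hx, by
          show a - δ / 2 < f x
          have := hK x hx
          linarith⟩) hb'
    refine ⟨s, hs1, hs2, W, hW1, fun x hx => (hW2 hx).1, hW3, hW4, fun x => max (f x - f p) 0,
      fun t => f p + t, s - f p, by fun_prop, by fun_prop, by simp, ?_, ?_, by ring, ?_⟩
    · rintro x ⟨hxW, hxs⟩
      have : f x ≤ s := hxs
      exact ⟨le_max_right _ _, max_le (by linarith) (by linarith)⟩
    · rintro x ⟨hxW, hxs⟩ hx
      simp only
      rw [hx, max_eq_left (by linarith)]
    · rintro x ⟨hxW, hxs⟩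
      have h1 : a - δ / 2 < f x := (hW2 hxW).2
      simp only
      rcases le_total (f x) (f p) with h | h
      · rw [max_eq_right (by linarith), abs_le]
        constructor <;> linarith
      · rw [max_eq_left (by linarith)]
        rw [show f p + (f x - f p) - f x = 0 by ring, abs_zero]
        exact hδ.le
  | succ n ih =>
    intro f hf a b hap hpb hab hK O hO hcO b' hb'
    by_cases hcase : f p ≤ a + δ / 2
    · -- the direct case
      obtain ⟨s, hs1, hs2, W, hW1, hW2, hW3, hW4⟩ := sep_level hf hpb
        (hO.inter (isOpen_lt continuous_const hf (f := fun _ => a - δ / 2))) (fun x hx =>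
          ⟨hcO hx, by
            show a - δ / 2 < f x
            have := hK x hx
            linarith⟩) hb'
      refine ⟨s, hs1, hs2, W, hW1, fun x hx => (hW2 hx).1, hW3, hW4, fun x => max (f x - f p) 0,
        fun t => f p + t, s - f p, by fun_prop, by fun_prop, by simp, ?_, ?_, by ring, ?_⟩
      · rintro x ⟨hxW, hxs⟩
        have : f x ≤ s := hxs
        exact ⟨le_max_right _ _, max_le (by linarith) (by linarith)⟩
      · rintro x ⟨hxW, hxs⟩ hx
        simp only
        rw [hx, max_eq_left (by linarith)]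
      · rintro x ⟨hxW, hxs⟩
        have h1 : a - δ / 2 < f x := (hW2 hxW).2
        simp only
        rcases le_total (f x) (f p) with h | h
        · rw [max_eq_right (by linarith), abs_le]
          constructor <;> linarith
        · rw [max_eq_left (by linarith)]
          rw [show f p + (f x - f p) - f x = 0 by ring, abs_zero]
          exact hδ.le
    push Not at hcase
    set a' := a + δ / 4 with ha'
    have hap' : a' ≤ f p := by linarith
    have hlen : b - a' ≤ n * (δ / 4) := by
      push_cast at hab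
      linarith
    -- the component in the superlevel set, as a sublevel component of `-f`
    have hf' : Continuous fun x => -f x := hf.neg
    have hmem : (fun x => -f x) p ≤ -a' := by simp only; linarith
    rcases hN (cc f b p) (cc (fun x => -f x) (-a') p) (isClosed_cc hf) (isClosed_cc hf')
      isPreconnected_connectedComponentIn isPreconnected_connectedComponentIn (mem_cc hpb)
      (mem_cc hmem) with hc | hc
    · -- the sublevel component stays above `a'`
      refine ih f hf a' b hap' hpb hlen ?_ O hO hcO b' hb'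
      intro x hx
      have := cc_sub (hc hx)
      linarith
    · -- fold at the bottom
      obtain ⟨s, hs1, hs2, W, hW1, hW2, hW3, hW4⟩ := sep_level hf hpb
        (hO.inter (isOpen_lt continuous_const hf (f := fun _ => a - δ / 2))) (fun x hx =>
          ⟨hcO hx, by
            show a - δ / 2 < f x
            have := hK x hx
            linarith⟩) hb'
      obtain ⟨r', hr1, hr2, V, hV1, hV2, hV3, hV4, F, v, M, hv, hF, hFp, hFM, hFs, hvM, hvF⟩ :=
        ih (fun x => -f x) hf' (-b) (-a') (by linarith) hmem (by linarith)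
          (fun x hx => by
            have := cc_sub (hc hx)
            linarith)
          (W ∩ {x | f x < s}) (hW1.inter (isOpen_lt hf continuous_const))
          (fun x hx => ⟨hW3 (hc hx), lt_of_le_of_lt (cc_sub (hc hx)) hs1⟩)
          (-a' + δ / 8) (by linarith)
      set r := -r' with hr
      have hr1' : r < a' := by rw [hr]; linarith
      have hr2' : a' - δ / 8 < r := by rw [hr]; linarith
      have hVeq : V ∩ {x | -f x ≤ r'} = V ∩ {x | r ≤ f x} := by
        ext x
        simp only [mem_inter_iff, mem_ofPred_eq, hr]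
        constructor
        · rintro ⟨h1, h2⟩; exact ⟨h1, by linarith⟩
        · rintro ⟨h1, h2⟩; exact ⟨h1, by linarith⟩
      rw [hVeq] at hV4 hF hFM hFs hvF
      classical
      let G : X → ℝ := fun x => if x ∈ V ∩ {x | r ≤ f x} then F x else M + max (f x - r) 0
      have hM0 : 0 ≤ M := by
        have hpV : p ∈ V ∩ {x | r ≤ f x} := ⟨hV3 (mem_cc hmem), by
          show r ≤ f p
          linarith⟩
        exact (hFM p hpV).1.trans (hFM p hpV).2
      have hpV : p ∈ V ∩ {x | r ≤ f x} := ⟨hV3 (mem_cc hmem), by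
        show r ≤ f p
        linarith⟩
      refine ⟨s, hs1, hs2, W, hW1, fun x hx => (hW2 hx).1, hW3, hW4, G,
        fun t => -(v (min t M)) + max (t - M) 0, M + (s - r), by fun_prop, ?_, ?_, ?_, ?_, ?_, ?_⟩
      · -- continuity
        have hsub : W ∩ {x | f x ≤ s} ⊆ (V ∩ {x | r ≤ f x}) ∪
            (((W ∩ {x | f x ≤ s}) ∩ {x | r ≤ f x}) \ V ∪ ((W ∩ {x | f x ≤ s}) ∩ {x | f x ≤ r})) := by
          rintro x hx
          by_cases h1 : r ≤ f x
          · by_cases h2 : x ∈ V
            · exact Or.inl ⟨h2, h1⟩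
            · exact Or.inr (Or.inl ⟨⟨hx, h1⟩, h2⟩)
          · exact Or.inr (Or.inr ⟨hx, (not_le.1 h1).le⟩)
        refine ContinuousOn.mono ?_ hsub
        have hclV : IsClosed (V ∩ {x | r ≤ f x}) := hV4
        have hclT : IsClosed (((W ∩ {x | f x ≤ s}) ∩ {x | r ≤ f x}) \ V ∪
            ((W ∩ {x | f x ≤ s}) ∩ {x | f x ≤ r})) := by
          apply IsClosed.union
          · rw [Set.sdiff_eq]
            exact (hW4.inter (isClosed_le continuous_const hf)).inter hV1.isClosed_compl
          · exact hW4.inter (isClosed_le hf continuous_const)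
        refine ContinuousOn.union_of_isClosed ?_ ?_ hclV hclT
        · refine hF.congr ?_
          intro x hx
          simp only [G, if_pos hx]
        · have : ContinuousOn (fun x => M + max (f x - r) 0) (((W ∩ {x | f x ≤ s}) ∩
              {x | r ≤ f x}) \ V ∪ ((W ∩ {x | f x ≤ s}) ∩ {x | f x ≤ r})) := by fun_prop
          refine this.congr ?_
          intro x hx
          by_cases hxV : x ∈ V ∩ {x | r ≤ f x}
          · simp only [G, if_pos hxV]
            rcases hx with hx | hx
            · exact absurd hxV.1 hx.2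
            · have h1 : f x ≤ r := hx.2
              have h2 : r ≤ f x := hxV.2
              have h3 : f x = r := le_antisymm h1 h2
              rw [hFs x hxV (by rw [h3, hr]; ring), h3]
              simp
          · simp only [G, if_neg hxV]
      · simp only [G, if_pos hpV, hFp]
      · rintro x ⟨hxW, hxs⟩
        have hxs' : f x ≤ s := hxs
        by_cases hxV : x ∈ V ∩ {x | r ≤ f x}
        · simp only [G, if_pos hxV]
          have := hFM x hxV
          exact ⟨this.1, by linarith [this.2]⟩
        · simp only [G, if_neg hxV]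
          have h1 : 0 ≤ max (f x - r) 0 := le_max_right _ _
          have h2 : max (f x - r) 0 ≤ s - r := max_le (by linarith) (by linarith)
          exact ⟨by linarith, by linarith⟩
      · rintro x ⟨hxW, hxs⟩ hx
        have hxV : x ∉ V ∩ {x | r ≤ f x} := by
          rintro ⟨h1, -⟩
          have := (hV2 h1).2
          simp only [mem_ofPred_eq] at this
          linarith
        simp only [G, if_neg hxV, hx]
        rw [max_eq_left (by linarith)]
      · simp only
        rw [min_eq_right (by linarith), hvM, max_eq_left (by linarith), hr]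
        ring
      · rintro x ⟨hxW, hxs⟩
        have hxs' : f x ≤ s := hxs
        by_cases hxV : x ∈ V ∩ {x | r ≤ f x}
        · simp only [G, if_pos hxV]
          have h1 := hFM x hxV
          rw [min_eq_left h1.2, max_eq_right (by linarith [h1.2])]
          have h2 := hvF x hxV
          rw [abs_le] at h2 ⊢
          constructor <;> linarith [h2.1, h2.2]
        · simp only [G, if_neg hxV]
          have h1 : 0 ≤ max (f x - r) 0 := le_max_right _ _
          rw [min_eq_right (by linarith), hvM, show M + max (f x - r) 0 - M = max (f x - r) 0 by ring,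
            max_eq_left h1]
          have h3 : a - δ / 2 < f x := (hW2 hxW).2
          rcases le_total (f x) r with h | h
          · rw [max_eq_right (by linarith), abs_le]
            constructor <;> linarith
          · rw [max_eq_left (by linarith), show -r' + (f x - r) - f x = 0 by rw [hr]; ring, abs_zero]
            exact hδ.le

/-- **Every point is an end point**, in terms of functions. -/
theorem exists_fold [PreconnectedSpace X] {p : X} (hN : Nested X p) {f : X → ℝ} (hf : Continuous f)
    {δ : ℝ} (hδ : 0 < δ) : ∃ (F : X → ℝ) (v : ℝ → ℝ), Continuous F ∧ Continuous v ∧ F p = 0 ∧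
      (∀ x, 0 ≤ F x) ∧ ∀ x, |v (F x) - f x| ≤ δ := by
  obtain ⟨B, hB⟩ := (isCompact_range hf).isBounded.exists_norm_le
  have hB' : ∀ x, -B ≤ f x ∧ f x ≤ B := fun x => abs_le.1 (hB _ ⟨x, rfl⟩)
  obtain ⟨n, hn⟩ := exists_nat_gt (2 * B / (δ / 4))
  have hδ4 : 0 < δ / 4 := by positivity
  rw [div_lt_iff₀ hδ4] at hn
  have hcc : cc f B p = univ := by
    unfold cc
    have : {x | f x ≤ B} = univ := eq_univ_of_forall fun x => (hB' x).2
    rw [this, connectedComponentIn_univ]
    exact PreconnectedSpace.connectedComponent_eq_univ p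
  obtain ⟨s, hs, -, W, -, -, hW, -, F, v, M, hv, hF, hFp, hFM, -, -, hvF⟩ :=
    fold hN hδ n f hf (-B) B (hB' p).1 (hB' p).2 (by linarith) (fun x _ => (hB' x).1) univ
      isOpen_univ (subset_univ _) (B + 1) (by linarith)
  have hWu : W ∩ {x | f x ≤ s} = univ := by
    apply eq_univ_of_forall
    intro x
    refine ⟨hW (by rw [hcc]; trivial), ?_⟩
    show f x ≤ s
    linarith [(hB' x).2]
  rw [hWu] at hF hFM hvF
  exact ⟨F, v, continuousOn_univ.1 hF, hv, hFp, fun x => (hFM x trivial).1, fun x => hvF x trivial⟩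

end Run7.h149
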