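import Mathlib
import Pool.Agent.Run7.h149.HI
import Pool.Agent.Run7.h149.Fold

/-! Homogeneity of the generic inverse limit (the pseudo-arc). -/

set_option autoImplicit false

open Set Topology unitInterval

namespace Run7.h149

/-- a map with small fibres does not bring together distant points -/
lemma fine_of_fibres {X : Type} [MetricSpace X] [CompactSpace X] {F : X → ℝ} (hF : Continuous F)
    {η : ℝ} (h : ∀ x y, F x = F y → dist x y < η) :
    ∃ ε : ℝ, 0 < ε ∧ ∀ x y, |F x - F y| ≤ ε → dist x y < η := by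
  have hC : IsCompact {z : X × X | η ≤ dist z.1 z.2} :=
    (isClosed_le continuous_const (by fun_prop)).isCompact
  rcases ({z : X × X | η ≤ dist z.1 z.2}).eq_empty_or_nonempty with he | hne
  · refine ⟨1, one_pos, fun x y _ => ?_⟩
    by_contra hcon
    push Not at hcon
    have : (x, y) ∈ {z : X × X | η ≤ dist z.1 z.2} := hcon
    rw [he] at this
    exact this
  · obtain ⟨z, hz, hmin⟩ := hC.exists_isMinOn hne
      (f := fun z : X × X => |F z.1 - F z.2|) (by fun_prop)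
    have hpos : 0 < |F z.1 - F z.2| := by
      rw [abs_pos, sub_ne_zero]
      intro h0
      have := h _ _ h0
      have hz' : η ≤ dist z.1 z.2 := hz
      linarith
    refine ⟨|F z.1 - F z.2| / 2, by positivity, fun x y hxy => ?_⟩
    by_contra hcon
    push Not at hcon
    have h1 := hmin (show (x, y) ∈ {z : X × X | η ≤ dist z.1 z.2} from hcon)
    have h2 : |F z.1 - F z.2| ≤ |F x - F y| := h1
    linarith

/-- the projections are eventually fine -/
lemma pr_fine {η : ℝ} (hη : 0 < η) : ∃ N, ∀ n, N ≤ n → ∀ x y : PA, pr n x = pr n y →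
    dist x y < η := by
  by_contra hcon
  push Not at hcon
  let C : ℕ → Set (PA × PA) := fun n => {q | pr n q.1 = pr n q.2 ∧ η ≤ dist q.1 q.2}
  have hd : Continuous fun q : PA × PA => dist q.1 q.2 := continuous_dist
  have hCcl : ∀ n, IsClosed (C n) := fun n =>
    (isClosed_eq ((pr n).continuous.comp continuous_fst)
      ((pr n).continuous.comp continuous_snd)).inter (isClosed_le continuous_const hd)
  have hCne : ∀ n, (C n).Nonempty := by
    intro n
    obtain ⟨m, hm, x, y, hxy, h⟩ := hcon n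
    exact ⟨(x, y), pr_mono hm hxy, h⟩
  have hCanti : ∀ n, C (n + 1) ⊆ C n := by
    rintro n ⟨x, y⟩ ⟨h1, h2⟩
    exact ⟨pr_mono (Nat.le_succ n) h1, h2⟩
  obtain ⟨⟨x, y⟩, hxy⟩ := IsCompact.nonempty_iInter_of_sequence_nonempty_isCompact_isClosed C
    hCanti hCne (hCcl 0).isCompact hCcl
  have hall : ∀ n, pr n x = pr n y ∧ η ≤ dist x y := fun n => mem_iInter.1 hxy n
  have hxy' : x = y := pr_sep fun n => (hall n).1
  have h0 := (hall 0).2
  rw [hxy', dist_self] at h0
  linarith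

lemma surj_pa {f : C(PA, I)} {x y : PA} (hx : f x = 0) (hy : f y = 1) : Function.Surjective f := by
  intro t
  have h := (isPreconnected_univ (α := PA)).intermediate_value (mem_univ x) (mem_univ y)
    f.continuous.continuousOn
  rw [hx, hy] at h
  obtain ⟨z, -, hz⟩ := h (show t ∈ Icc (0 : I) 1 from ⟨t.2.1, t.2.2⟩)
  exact ⟨z, hz⟩

lemma nested_pa (p : PA) : Nested PA p := fun _ _ hK hL cK cL pK pL => nested hK hL cK cL pK pL

lemma proj_near {s t : ℝ} (ht : t ∈ Icc (0:ℝ) 1) :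
    |((projIcc (0:ℝ) 1 zero_le_one s : I) : ℝ) - t| ≤ |s - t| := by
  have := LipschitzWith.dist_le_mul
    (LipschitzWith.projIcc (a := (0:ℝ)) (b := 1) (h := zero_le_one)) s t
  rw [Subtype.dist_eq, projIcc_of_mem _ ht, Real.dist_eq, Real.dist_eq] at this
  simpa using this

/-- every point is an end point -/
theorem endp (q : PA) (g : C(PA, I)) {δ η : ℝ} (hδ : 0 < δ) (hη : 0 < η) :
    ∃ (F : C(PA, I)) (v : C(I, I)), Function.Surjective F ∧ F q = 0 ∧
      (∀ x, |(v (F x) : ℝ) - g x| ≤ δ) ∧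
      ∃ ε : ℝ, 0 < ε ∧ ∀ x y, |(F x : ℝ) - F y| ≤ ε → dist x y < η := by
  obtain ⟨N, hN⟩ := pr_fine hη
  obtain ⟨n, hn, G, hG⟩ := pr_sw ⟨fun x => (g x : ℝ), by fun_prop⟩ (show 0 < δ / 2 by positivity) N
  simp only [ContinuousMap.coe_mk] at hG
  obtain ⟨ε₁, hε₁, h₁⟩ := fine_of_fibres (F := fun x => (pr n x : ℝ)) (by fun_prop)
    (fun x y hxy => hN n hn x y (Subtype.ext hxy))
  -- the clamped approximation
  let G' : C(I, I) := ⟨fun t => projIcc 0 1 zero_le_one (G t), by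
    exact continuous_projIcc.comp G.continuous⟩
  have hG' : ∀ y, |(G' (pr n y) : ℝ) - g y| ≤ δ / 2 := by
    intro y
    exact (proj_near (g y).2).trans (hG y).le
  obtain ⟨δ₁, hδ₁, huc⟩ := ext_uc G' (show 0 < δ / 2 by positivity)
  set δ₂ := min δ₁ (min (ε₁ / 4) (1 / 4)) with hδ₂
  have hδ₂0 : 0 < δ₂ := by positivity
  obtain ⟨F₀, v₀, hF₀, hv₀, hF₀q, hF₀n, hvF⟩ := exists_fold (nested_pa q)
    (f := fun x => (pr n x : ℝ)) (by fun_prop) hδ₂0
  obtain ⟨z, -, hz⟩ := isCompact_univ.exists_isMaxOn (univ_nonempty (α := PA)) hF₀.continuousOn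
  have hz' : ∀ x, F₀ x ≤ F₀ z := fun x => hz (mem_univ x)
  have hM : 0 < F₀ z := by
    by_contra hcon
    push Not at hcon
    have h0 : ∀ x, F₀ x = 0 := fun x => le_antisymm ((hz' x).trans hcon) (hF₀n x)
    obtain ⟨x, hx⟩ := pr_surj n 0
    obtain ⟨y, hy⟩ := pr_surj n 1
    have a1 := hvF x
    have a2 := hvF y
    rw [h0, hx, abs_le] at a1
    rw [h0, hy, abs_le] at a2
    simp only [Icc.coe_zero, Icc.coe_one] at a1 a2
    have : δ₂ ≤ 1 / 4 := (min_le_right _ _).trans (min_le_right _ _)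
    linarith [a1.1, a1.2, a2.1, a2.2]
  set M := F₀ z with hMdef
  let F : C(PA, I) := ⟨fun x => ⟨F₀ x / M, div_nonneg (hF₀n x) hM.le, by
    rw [div_le_one hM]; exact hz' x⟩, by fun_prop⟩
  have hFe : ∀ x, (F x : ℝ) = F₀ x / M := fun x => rfl
  let v : C(I, I) := ⟨fun t => G' (projIcc 0 1 zero_le_one (v₀ (M * t))), by
    refine G'.continuous.comp (continuous_projIcc.comp ?_)
    fun_prop⟩
  have hve : ∀ x, v (F x) = G' (projIcc 0 1 zero_le_one (v₀ (F₀ x))) := by
    intro x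
    show G' (projIcc 0 1 zero_le_one (v₀ (M * (F x : ℝ)))) = _
    rw [hFe, mul_div_cancel₀ _ hM.ne']
  have hFq : F q = 0 := by
    apply Subtype.ext
    rw [hFe, hF₀q]
    simp
  have hFz : F z = 1 := by
    apply Subtype.ext
    rw [hFe, ← hMdef, div_self hM.ne']
    simp
  refine ⟨F, v, surj_pa hFq hFz, hFq, ?_, ?_⟩
  · intro x
    rw [hve]
    have b1 : |((projIcc (0:ℝ) 1 zero_le_one (v₀ (F₀ x)) : I) : ℝ) - pr n x| ≤ δ₂ :=
      (proj_near (pr n x).2).trans (hvF x)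
    have b2 := huc _ _ (b1.trans (min_le_left _ _))
    rw [ext_coe, ext_coe] at b2
    have b3 := hG' x
    rw [abs_le] at b2 b3 ⊢
    constructor <;> linarith [b2.1, b2.2, b3.1, b3.2]
  · apply fine_of_fibres (F := fun x => (F x : ℝ)) (by fun_prop)
    intro x y hxy
    apply h₁
    have h3 : F₀ x = F₀ y := by
      simp only [hFe] at hxy
      rwa [div_left_inj' hM.ne'] at hxy
    have a1 := hvF x
    have a2 := hvF y
    rw [h3] at a1
    have : δ₂ ≤ ε₁ / 4 := (min_le_right _ _).trans (min_le_left _ _)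
    rw [abs_le] at a1 a2 ⊢
    constructor <;> linarith [a1.1, a1.2, a2.1, a2.2]

/-- a pair of surjections vanishing at `p` and at `q` -/
def Good (p q : PA) (f g : C(PA, I)) : Prop :=
  Function.Surjective f ∧ Function.Surjective g ∧ f p = 0 ∧ g q = 0

lemma Good.symm {p q : PA} {f g : C(PA, I)} (h : Good p q f g) : Good q p g f :=
  ⟨h.2.1, h.1, h.2.2.2, h.2.2.1⟩

/-- one half of the back-and-forth step -/
lemma step {p q : PA} {f g : C(PA, I)} (hfg : Good p q f g) {ε η : ℝ} (hε : 0 < ε) (hη : 0 < η) :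
    ∃ (f' g' : C(PA, I)) (ε' : ℝ), Good p q f' g' ∧ 0 < ε' ∧
      (∀ x y, |(f' x : ℝ) - g' y| ≤ ε' → |(f x : ℝ) - g y| ≤ ε) ∧
      ∀ x y y', |(f' x : ℝ) - g' y| ≤ ε' → |(f' x : ℝ) - g' y'| ≤ ε' → dist y y' < η := by
  obtain ⟨hf, hg, hfp, hgq⟩ := hfg
  set a : ℝ := min (ε / 16) (1 / 4) with ha
  have ha0 : 0 < a := by positivity
  have ha1 : a ≤ 1 / 4 := min_le_right _ _
  have ha2 : a ≤ ε / 16 := min_le_left _ _
  obtain ⟨g', v₀, hg', hg'q, hv₀, ε₁, hε₁, hfine⟩ := endp q g ha0 hη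
  let aI : I := ⟨a, ha0.le, by linarith⟩
  let v : C(I, I) := ⟨fun t => max (TT a (v₀ t)) (min t aI), by fun_prop⟩
  have hvr : ∀ t, (v t : ℝ) = max (TT a (v₀ t) : ℝ) (min (t : ℝ) a) := by
    intro t
    show ((max (TT a (v₀ t)) (min t aI) : I) : ℝ) = _
    have hmono : Monotone (Subtype.val : I → ℝ) := fun _ _ h => h
    rw [hmono.map_max, hmono.map_min]
  have hv_near : ∀ t, |(v t : ℝ) - v₀ t| ≤ 2 * a := by
    intro t
    have h1 := TT_near (s := (v₀ t : ℝ)) ha0.le ha1 (by linarith [(v₀ t).2.1])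
      (by linarith [(v₀ t).2.2])
    rw [hvr]
    have h2 : 0 ≤ (TT a (v₀ t) : ℝ) := (TT a (v₀ t)).2.1
    have h3 : min (t : ℝ) a ≤ a := min_le_right _ _
    have h4 : 0 ≤ min (t : ℝ) a := le_min t.2.1 ha0.le
    have h5 : max (TT a (v₀ t) : ℝ) (min (t : ℝ) a) ≤ (TT a (v₀ t) : ℝ) + a :=
      max_le (by linarith) (by linarith)
    have h6 : (TT a (v₀ t) : ℝ) ≤ max (TT a (v₀ t) : ℝ) (min (t : ℝ) a) := le_max_left _ _
    rw [abs_le] at h1 ⊢
    constructor <;> linarith [h1.1, h1.2]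
  have hvg : ∀ y, |(v (g' y) : ℝ) - g y| ≤ 3 * a := by
    intro y
    have h1 := hv_near (g' y)
    have h2 := hv₀ y
    rw [abs_le] at h1 h2 ⊢
    constructor <;> linarith [h1.1, h1.2, h2.1, h2.2]
  have hv0 : v 0 = 0 := by
    have h2 := hv₀ q
    rw [hg'q, hgq, abs_le] at h2
    have h3 : TT a (v₀ 0) = 0 := TT_zero ha1 (by simpa using h2.2)
    apply Subtype.ext
    rw [hvr, h3]
    simp [ha0.le]
  have hv1 : ∃ t, v t = 1 := by
    obtain ⟨y1, hy1⟩ := hg 1
    refine ⟨g' y1, ?_⟩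
    have h2 := hv₀ y1
    rw [hy1, abs_le] at h2
    have h3 : TT a (v₀ (g' y1)) = 1 := TT_one ha1 (by
      have := h2.1
      simp only [Icc.coe_one] at this
      linarith)
    apply Subtype.ext
    rw [hvr, h3]
    simp only [Icc.coe_one]
    apply max_eq_left
    exact (min_le_left _ _).trans (g' y1).2.2
  obtain ⟨t1, ht1⟩ := hv1
  have hvs : Function.Surjective v := surj_of_ends hv0 ht1
  obtain ⟨δ₁, hδ₁, huc⟩ := ext_uc v ha0
  set δ₂ := min δ₁ (1 / 4) with hδ₂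
  have hδ₂0 : 0 < δ₂ := by positivity
  have hδ₂1 : δ₂ ≤ 1 / 4 := min_le_right _ _
  set δ₃ := min δ₂ a / 2 with hδ₃
  have hδ₃0 : 0 < δ₃ := by positivity
  have hm0 : 0 < min δ₂ a := by positivity
  obtain ⟨f₁, hf₁, hvf₁⟩ := lift f hf v hvs hδ₃0
  have hf₁p : (f₁ p : ℝ) ≤ δ₂ := by
    by_contra hcon
    push Not at hcon
    have h1 := hvf₁ p
    rw [hfp, abs_le] at h1
    have h2 : min (f₁ p : ℝ) a ≤ (v (f₁ p) : ℝ) := by rw [hvr]; exact le_max_right _ _
    have h3 : min δ₂ a ≤ min (f₁ p : ℝ) a := min_le_min_right _ hcon.le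
    have h4 := h1.2
    simp only [Icc.coe_zero] at h4
    linarith
  let f' : C(PA, I) := (TT δ₂).comp ⟨fun x => (f₁ x : ℝ), by fun_prop⟩
  have hf'e : ∀ x, f' x = TT δ₂ (f₁ x) := fun x => rfl
  have hf'p : f' p = 0 := TT_zero hδ₂1 hf₁p
  obtain ⟨x1, hx1⟩ := hf₁ 1
  have hf'x1 : f' x1 = 1 := TT_one (s := (f₁ x1 : ℝ)) hδ₂1 (by rw [hx1]; simp [hδ₂0.le])
  have hf'near : ∀ x, |(f' x : ℝ) - f₁ x| ≤ δ₂ := fun x =>
    TT_near (s := (f₁ x : ℝ)) hδ₂0.le hδ₂1 (by linarith [(f₁ x).2.1]) (by linarith [(f₁ x).2.2])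
  have hvf' : ∀ x, |(v (f' x) : ℝ) - f x| ≤ 2 * a := by
    intro x
    have h1 := huc _ _ ((hf'near x).trans (min_le_left _ _))
    rw [ext_coe, ext_coe] at h1
    have h2 := hvf₁ x
    have h3 : δ₃ ≤ a := by
      have : min δ₂ a ≤ a := min_le_right _ _
      rw [hδ₃]
      linarith
    rw [abs_le] at h1 h2 ⊢
    constructor <;> linarith [h1.1, h1.2, h2.1, h2.2]
  refine ⟨f', g', min δ₁ (ε₁ / 2), ⟨surj_pa hf'p hf'x1, hg', hf'p, hg'q⟩, by positivity, ?_, ?_⟩
  · intro x y hxy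
    have h1 := huc _ _ (hxy.trans (min_le_left _ _))
    rw [ext_coe, ext_coe] at h1
    have h2 := hvf' x
    have h3 := hvg y
    rw [abs_le] at h1 h2 h3 ⊢
    constructor <;> linarith [h1.1, h1.2, h2.1, h2.2, h3.1, h3.2]
  · intro x y y' hxy hxy'
    apply hfine
    have h1 := hxy.trans (min_le_right _ _)
    have h2 := hxy'.trans (min_le_right _ _)
    rw [abs_le] at h1 h2 ⊢
    constructor <;> linarith [h1.1, h1.2, h2.1, h2.2]

/-- the full back-and-forth step -/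
lemma step2 {p q : PA} {f g : C(PA, I)} (hfg : Good p q f g) {ε η : ℝ} (hε : 0 < ε) (hη : 0 < η) :
    ∃ (f' g' : C(PA, I)) (ε' : ℝ), Good p q f' g' ∧ 0 < ε' ∧
      (∀ x y, |(f' x : ℝ) - g' y| ≤ ε' → |(f x : ℝ) - g y| ≤ ε) ∧
      (∀ x y y', |(f' x : ℝ) - g' y| ≤ ε' → |(f' x : ℝ) - g' y'| ≤ ε' → dist y y' < η) ∧
      ∀ x x' y, |(f' x : ℝ) - g' y| ≤ ε' → |(f' x' : ℝ) - g' y| ≤ ε' → dist x x' < η := by
  obtain ⟨f₁, g₁, ε₁, h₁, hε₁, ha, hb⟩ := step hfg hε hη
  obtain ⟨g₂, f₂, ε₂, h₂, hε₂, ha', hb'⟩ := step h₁.symm hε₁ hη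
  refine ⟨f₂, g₂, ε₂, h₂.symm, hε₂, ?_, ?_, ?_⟩
  · intro x y hxy
    rw [abs_sub_comm] at hxy
    have := ha' y x hxy
    rw [abs_sub_comm] at this
    exact ha x y this
  · intro x y y' hxy hxy'
    rw [abs_sub_comm] at hxy hxy'
    have h3 := ha' y x hxy
    have h4 := ha' y' x hxy'
    rw [abs_sub_comm] at h3 h4
    exact hb x y y' h3 h4
  · intro x x' y hxy hxy'
    rw [abs_sub_comm] at hxy hxy'
    exact hb' y x x' hxy hxy'

/-- states of the construction -/
structure State (p q : PA) where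
  f : C(PA, I)
  g : C(PA, I)
  ε : ℝ
  good : Good p q f g
  pos : 0 < ε

/-- the relation of a state -/
def State.rel {p q : PA} (s : State p q) (x y : PA) : Prop := |(s.f x : ℝ) - s.g y| ≤ s.ε

lemma State.next {p q : PA} (s : State p q) (n : ℕ) : ∃ s' : State p q,
    (∀ x y, s'.rel x y → s.rel x y) ∧
    (∀ x y y', s'.rel x y → s'.rel x y' → dist y y' < 1 / ((n : ℝ) + 1)) ∧
    ∀ x x' y, s'.rel x y → s'.rel x' y → dist x x' < 1 / ((n : ℝ) + 1) := by
  obtain ⟨f', g', ε', h1, h2, h3, h4, h5⟩ := step2 s.good s.pos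
    (show 0 < 1 / ((n : ℝ) + 1) by positivity)
  exact ⟨⟨f', g', ε', h1, h2⟩, h3, h4, h5⟩

lemma exists_state (p q : PA) : Nonempty (State p q) := by
  obtain ⟨f, -, hf, hfp, -⟩ := endp p (pr 0) one_pos one_pos
  obtain ⟨g, -, hg, hgq, -⟩ := endp q (pr 0) one_pos one_pos
  exact ⟨⟨f, g, 1, ⟨hf, hg, hfp, hgq⟩, one_pos⟩⟩

/-- **Homogeneity of the pseudo-arc** (Bing). -/
theorem homogeneous (p q : PA) : ∃ h : PA ≃ₜ PA, h p = q := by
  classical
  let s : ℕ → State p q := fun n => Nat.rec (exists_state p q).some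
    (fun n s => (s.next n).choose) n
  have hs : ∀ n, (∀ x y, (s (n + 1)).rel x y → (s n).rel x y) ∧
      (∀ x y y', (s (n + 1)).rel x y → (s (n + 1)).rel x y' → dist y y' < 1 / ((n : ℝ) + 1)) ∧
      ∀ x x' y, (s (n + 1)).rel x y → (s (n + 1)).rel x' y → dist x x' < 1 / ((n : ℝ) + 1) :=
    fun n => ((s n).next n).choose_spec
  have hclosed : ∀ n, IsClosed {z : PA × PA | (s n).rel z.1 z.2} := by
    intro n
    unfold State.rel
    exact isClosed_le (by fun_prop) continuous_const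
  -- the limit relation
  let R : PA → PA → Prop := fun x y => ∀ n, (s n).rel x y
  have hRcl : IsClosed {z : PA × PA | R z.1 z.2} := by
    have : {z : PA × PA | R z.1 z.2} = ⋂ n, {z : PA × PA | (s n).rel z.1 z.2} := by
      ext z; simp [R]
    rw [this]
    exact isClosed_iInter hclosed
  have hRex : ∀ x, ∃ y, R x y := by
    intro x
    obtain ⟨y, hy⟩ := IsCompact.nonempty_iInter_of_sequence_nonempty_isCompact_isClosed
      (fun n => {y | (s n).rel x y}) (fun n y hy => (hs n).1 x y hy)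
      (fun n => by
        obtain ⟨y, hy⟩ := (s n).good.2.1 ((s n).f x)
        refine ⟨y, ?_⟩
        show |((s n).f x : ℝ) - (s n).g y| ≤ (s n).ε
        rw [hy, sub_self, abs_zero]
        exact (s n).pos.le)
      ((hclosed 0).preimage (by fun_prop : Continuous fun y => (x, y))).isCompact
      (fun n => (hclosed n).preimage (by fun_prop : Continuous fun y => (x, y)))
    exact ⟨y, fun n => mem_iInter.1 hy n⟩
  have hRex' : ∀ y, ∃ x, R x y := by
    intro y
    obtain ⟨x, hx⟩ := IsCompact.nonempty_iInter_of_sequence_nonempty_isCompact_isClosed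
      (fun n => {x | (s n).rel x y}) (fun n x hx => (hs n).1 x y hx)
      (fun n => by
        obtain ⟨x, hx⟩ := (s n).good.1 ((s n).g y)
        refine ⟨x, ?_⟩
        show |((s n).f x : ℝ) - (s n).g y| ≤ (s n).ε
        rw [hx, sub_self, abs_zero]
        exact (s n).pos.le)
      ((hclosed 0).preimage (by fun_prop : Continuous fun x => (x, y))).isCompact
      (fun n => (hclosed n).preimage (by fun_prop : Continuous fun x => (x, y)))
    exact ⟨x, fun n => mem_iInter.1 hx n⟩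
  have hRu : ∀ x y y', R x y → R x y' → y = y' := by
    intro x y y' h1 h2
    by_contra hne
    obtain ⟨n, hn⟩ := exists_nat_one_div_lt (dist_pos.2 hne)
    have := (hs n).2.1 x y y' (h1 (n + 1)) (h2 (n + 1))
    linarith
  have hRu' : ∀ x x' y, R x y → R x' y → x = x' := by
    intro x x' y h1 h2
    by_contra hne
    obtain ⟨n, hn⟩ := exists_nat_one_div_lt (dist_pos.2 hne)
    have := (hs n).2.2 x x' y (h1 (n + 1)) (h2 (n + 1))
    linarith
  choose φ hφ using hRex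
  choose ψ hψ using hRex'
  let e : PA ≃ PA :=
    { toFun := φ
      invFun := ψ
      left_inv := fun x => hRu' _ _ _ (hψ (φ x)) (hφ x)
      right_inv := fun y => hRu _ _ _ (hφ (ψ y)) (hψ y) }
  have he : Continuous e := by
    rw [continuous_iff_isClosed]
    intro C hC
    have : e ⁻¹' C = Prod.fst '' ({z : PA × PA | R z.1 z.2} ∩ Prod.snd ⁻¹' C) := by
      ext x
      constructor
      · intro hx
        exact ⟨(x, φ x), ⟨hφ x, hx⟩, rfl⟩
      · rintro ⟨⟨x', y⟩, ⟨h1, h2⟩, rfl⟩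
        have h3 : φ x' = y := hRu _ _ _ (hφ x') h1
        show φ x' ∈ C
        rw [h3]
        exact h2
    rw [this]
    exact ((hRcl.inter (hC.preimage continuous_snd)).isCompact.image continuous_fst).isClosed
  refine ⟨Continuous.homeoOfEquivCompactToT2 (f := e) he, ?_⟩
  show φ p = q
  refine hRu p _ _ (hφ p) fun n => ?_
  show |((s n).f p : ℝ) - (s n).g q| ≤ (s n).ε
  rw [(s n).good.2.2.1, (s n).good.2.2.2, sub_self, abs_zero]
  exact (s n).pos.le

end Run7.h149
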