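import Mathlib
import Pool.Agent.Run7.h149.Hom
import Pool.Agent.R292.CovDim
import Pool.Agent.Helper627.PM

/-! The dimension of the square of the pseudo-arc. -/

set_option autoImplicit false

open Set Topology unitInterval

namespace Run7.h149

open Pool.Agent.R292.CovDim

lemma col_PA : Col (univ : Set PA) 1 := by
  intro ε hε k
  obtain ⟨N, hN⟩ := pr_fine hε
  obtain ⟨ε₁, hε₁, h₁⟩ := fine_of_fibres (F := fun x => (pr N x : ℝ)) (by fun_prop)
    (fun x y hxy => hN N le_rfl x y (Subtype.ext hxy))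
  obtain ⟨κ, hκ, F, f1, f2, f3, f4⟩ := Col.Icc 0 1 ε₁ hε₁ k
  have hc : Continuous fun x : PA => (pr N x : ℝ) := by fun_prop
  refine ⟨κ, hκ, fun j a => (fun x : PA => (pr N x : ℝ)) ⁻¹' F j a, ?_, ?_, ?_, ?_⟩
  · intro j a
    exact ((f1 j a).isClosed.preimage hc).isCompact
  · intro j a b hab
    exact (f2 j a b hab).preimage _
  · intro j a x hx y hy
    have := f3 j a _ hx _ hy
    rw [Real.dist_eq] at this
    exact (h₁ x y this).le
  · intro x _
    have h2 := f4 (pr N x) (pr N x).2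
    have : {j | x ∉ ⋃ a, (fun x : PA => (pr N x : ℝ)) ⁻¹' F j a} =
        {j | (pr N x : ℝ) ∉ ⋃ a, F j a} := by
      ext j
      simp
    rw [this]
    exact h2

/-- the square of the pseudo-arc has covering dimension at most two -/
theorem dim_le_two (k : ℕ) (U : Fin k → Set (PA × PA)) (hU : ∀ i, IsOpen (U i))
    (hc : (⋃ i, U i) = Set.univ) :
    ∃ V : Fin k → Set (PA × PA), (∀ i, IsOpen (V i)) ∧ (∀ i, V i ⊆ U i) ∧ (⋃ i, V i) = Set.univ ∧
      ∀ x : PA × PA, Set.ncard {i : Fin k | x ∈ V i} ≤ 2 + 1 := by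
  classical
  have hcol := col_PA.prod col_PA
  have hdim := dimLE_of_col (isCompact_univ.prod isCompact_univ) hcol
  let ι : PA × PA → ((univ ×ˢ univ : Set (PA × PA)) : Type) := fun z => ⟨z, trivial, trivial⟩
  have hι : Continuous ι := continuous_id.subtype_mk _
  obtain ⟨κ, hκ, V, V1, V2, V3, V4⟩ := hdim (Fin k) (fun i => Subtype.val ⁻¹' U i)
    (fun i => (hU i).preimage continuous_subtype_val) (by
      rw [← preimage_iUnion, hc, preimage_univ])
  choose c hcV using V3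
  refine ⟨fun i => ι ⁻¹' (⋃ j ∈ {j | c j = i}, V j), ?_, ?_, ?_, ?_⟩
  · intro i
    refine IsOpen.preimage hι (isOpen_biUnion fun j _ => V1 j)
  · intro i z hz
    obtain ⟨j, hj, hzj⟩ := mem_iUnion₂.1 hz
    have h1 := hcV j hzj
    have h2 : c j = i := hj
    rw [h2] at h1
    exact h1
  · apply eq_univ_of_forall
    intro z
    obtain ⟨j, hj⟩ := mem_iUnion.1 (V2 ▸ mem_univ (ι z) : ι z ∈ ⋃ k, V k)
    exact mem_iUnion.2 ⟨c j, mem_iUnion₂.2 ⟨j, rfl, hj⟩⟩
  · intro z
    have h4 := V4 (ι z)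
    refine le_trans ?_ h4
    rw [← Nat.card_coe_set_eq]
    have hfin : Finite {k // ι z ∈ V k} := inferInstance
    refine Nat.card_le_card_of_surjective
      (fun j : {k // ι z ∈ V k} => (⟨c j.1, mem_iUnion₂.2 ⟨j.1, rfl, j.2⟩⟩ :
        {i : Fin k | z ∈ ι ⁻¹' (⋃ j ∈ {j | c j = i}, V j)})) ?_
    rintro ⟨i, hi⟩
    obtain ⟨j, hj, hzj⟩ := mem_iUnion₂.1 hi
    exact ⟨⟨j, hzj⟩, Subtype.ext hj⟩

/-- The three-set covering lemma for the square of the pseudo-arc. -/
theorem no_cover {A B C : Set (PA × PA)} (hA : IsOpen A) (hB : IsOpen B) (hC : IsOpen C)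
    (hcov : A ∪ B ∪ C = univ) (hA1 : ∀ z ∈ A, pr 0 z.1 ≠ 1)
    (hB0 : ∀ z ∈ B, pr 0 z.1 ≠ 0) (hB1 : ∀ z ∈ B, pr 0 z.2 ≠ 1)
    (hC0 : ∀ z ∈ C, pr 0 z.1 ≠ 0) (hC1 : ∀ z ∈ C, pr 0 z.2 ≠ 0)
    (hemp : A ∩ B ∩ C = ∅) : False := by
  obtain ⟨x0, hx0⟩ := pr_surj 0 0
  obtain ⟨x1, hx1⟩ := pr_surj 0 1
  have hAne : Aᶜ.Nonempty := ⟨(x1, x1), fun h => hA1 _ h hx1⟩
  have hBne : Bᶜ.Nonempty := ⟨(x0, x0), fun h => hB0 _ h hx0⟩
  have hCne : Cᶜ.Nonempty := ⟨(x0, x0), fun h => hC0 _ h hx0⟩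
  let dA : PA × PA → ℝ := fun z => Metric.infDist z Aᶜ
  let dB : PA × PA → ℝ := fun z => Metric.infDist z Bᶜ
  let dC : PA × PA → ℝ := fun z => Metric.infDist z Cᶜ
  have cA : Continuous dA := Metric.continuous_infDist_pt _
  have cB : Continuous dB := Metric.continuous_infDist_pt _
  have cC : Continuous dC := Metric.continuous_infDist_pt _
  have nA : ∀ z, 0 ≤ dA z := fun z => Metric.infDist_nonneg
  have nB : ∀ z, 0 ≤ dB z := fun z => Metric.infDist_nonneg
  have nC : ∀ z, 0 ≤ dC z := fun z => Metric.infDist_nonneg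
  have pA : ∀ z ∈ A, 0 < dA z := fun z hz =>
    (hA.isClosed_compl.notMem_iff_infDist_pos hAne).1 (fun h => h hz)
  have pB : ∀ z ∈ B, 0 < dB z := fun z hz =>
    (hB.isClosed_compl.notMem_iff_infDist_pos hBne).1 (fun h => h hz)
  have pC : ∀ z ∈ C, 0 < dC z := fun z hz =>
    (hC.isClosed_compl.notMem_iff_infDist_pos hCne).1 (fun h => h hz)
  have zA : ∀ z, z ∉ A → dA z = 0 := fun z hz => Metric.infDist_zero_of_mem hz
  have zB : ∀ z, z ∉ B → dB z = 0 := fun z hz => Metric.infDist_zero_of_mem hz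
  have zC : ∀ z, z ∉ C → dC z = 0 := fun z hz => Metric.infDist_zero_of_mem hz
  let G₁ : C(PA × PA, ℝ) := ⟨fun z => dB z + dC z - dA z, by fun_prop⟩
  let G₂ : C(PA × PA, ℝ) := ⟨fun z => dC z - dB z, by fun_prop⟩
  have e1 : ∀ z, G₁ z = dB z + dC z - dA z := fun z => rfl
  have e2 : ∀ z, G₂ z = dC z - dB z := fun z => rfl
  have hne : ∀ z, 0 < max |G₁ z| |G₂ z| := by
    intro z
    by_contra hcon
    push Not at hcon
    have h1 : |G₁ z| ≤ 0 := (le_max_left _ _).trans hcon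
    have h2 : |G₂ z| ≤ 0 := (le_max_right _ _).trans hcon
    have h1' : G₁ z = 0 := abs_nonpos_iff.1 h1
    have h2' : G₂ z = 0 := abs_nonpos_iff.1 h2
    rw [e1] at h1'
    rw [e2] at h2'
    have hz : z ∈ A ∪ B ∪ C := hcov ▸ mem_univ z
    have hzn : ¬ (z ∈ A ∧ z ∈ B ∧ z ∈ C) := by
      rintro ⟨a, b, c⟩
      have : z ∈ A ∩ B ∩ C := ⟨⟨a, b⟩, c⟩
      rw [hemp] at this
      exact this
    have hpos : 0 < dA z + dB z + dC z := by
      rcases hz with (h | h) | h
      · have := pA z h; linarith [nB z, nC z]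
      · have := pB z h; linarith [nA z, nC z]
      · have := pC z h; linarith [nA z, nB z]
    by_cases ha : z ∈ A
    · by_cases hb : z ∈ B
      · have hc : z ∉ C := fun hc => hzn ⟨ha, hb, hc⟩
        have := zC z hc
        linarith [nA z, nB z, pA z ha, pB z hb]
      · have := zB z hb
        linarith [nA z, nC z, pA z ha]
    · have := zA z ha
      linarith [nB z, nC z]
  obtain ⟨z₀, -, hz₀⟩ := isCompact_univ.exists_isMinOn (univ_nonempty (α := PA × PA))
    (f := fun z => max |G₁ z| |G₂ z|) (by fun_prop)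
  set c := max |G₁ z₀| |G₂ z₀| with hc
  have hc0 : 0 < c := hne z₀
  have hcm : ∀ z, c ≤ max |G₁ z| |G₂ z| := fun z => hz₀ (mem_univ z)
  -- approximation by functions on the square
  let ρ : ℕ → C(PA × PA, I × I) := fun n => ⟨fun z => (pr n z.1, pr n z.2), by fun_prop⟩
  have hρ : ∀ n z, ρ n z = (pr n z.1, pr n z.2) := fun n z => rfl
  have hdir : ∀ n m, n ≤ m → ∃ h : C(I × I, I × I), ρ n = h.comp (ρ m) := by
    intro n m h
    refine ⟨⟨fun w => ((St m n).1 w.1, (St m n).1 w.2), by fun_prop⟩, ?_⟩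
    ext z
    · show ((pr n z.1 : I) : ℝ) = ((St m n).1 (pr m z.1) : I)
      rw [pr_St h]
    · show ((pr n z.2 : I) : ℝ) = ((St m n).1 (pr m z.2) : I)
      rw [pr_St h]
  have hsep : ∀ x y : PA × PA, x ≠ y → ∃ n, ρ n x ≠ ρ n y := by
    intro x y hxy
    by_contra hcon
    push Not at hcon
    apply hxy
    exact Prod.ext (pr_sep fun n => congrArg Prod.fst (hcon n))
      (pr_sep fun n => congrArg Prod.snd (hcon n))
  obtain ⟨n₁, -, F₁, hF₁⟩ := sw ρ hdir hsep G₁ (show 0 < c / 4 by positivity) 0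
  obtain ⟨n, hn, F₂, hF₂⟩ := sw ρ hdir hsep G₂ (show 0 < c / 4 by positivity) n₁
  obtain ⟨h, hh⟩ := hdir n₁ n hn
  have hF₁' : ∀ z, |F₁ (h (ρ n z)) - G₁ z| < c / 4 := by
    intro z
    have := hF₁ z
    rw [hh] at this
    exact this
  -- a path between preimages of the end points
  obtain ⟨α, hα⟩ := (St n 0).2 0
  obtain ⟨β, hβ⟩ := (St n 0).2 1
  obtain ⟨r, hr0, hr1, -⟩ := exists_reparam α β
  let R : ℝ × ℝ → I × I := fun w => (r (projIcc 0 1 zero_le_one w.1), r (projIcc 0 1 zero_le_one w.2))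
  have hR : Continuous R := by
    have h1 : Continuous fun w : ℝ × ℝ => projIcc (0:ℝ) 1 zero_le_one w.1 :=
      continuous_projIcc.comp continuous_fst
    have h2 : Continuous fun w : ℝ × ℝ => projIcc (0:ℝ) 1 zero_le_one w.2 :=
      continuous_projIcc.comp continuous_snd
    exact (r.continuous.comp h1).prodMk (r.continuous.comp h2)
  have hRex : ∀ w, ∃ z, ρ n z = R w := by
    intro w
    obtain ⟨x, hx⟩ := pr_surj n (R w).1
    obtain ⟨y, hy⟩ := pr_surj n (R w).2
    exact ⟨(x, y), by rw [hρ]; exact Prod.ext hx hy⟩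
  have hRz : ∀ w z, ρ n z = R w → |F₁ (h (R w)) - G₁ z| < c / 4 ∧ |F₂ (R w) - G₂ z| < c / 4 := by
    intro w z hz
    rw [← hz]
    exact ⟨hF₁' z, hF₂ z⟩
  have q0 : (projIcc (0:ℝ) 1 zero_le_one 0 : I) = 0 := by
    rw [projIcc_left]; rfl
  have q1 : (projIcc (0:ℝ) 1 zero_le_one 1 : I) = 1 := by
    rw [projIcc_right]; rfl
  -- values on the sides
  have hfst0 : ∀ (w : ℝ × ℝ) z, w.1 = 0 → ρ n z = R w → pr 0 z.1 = 0 := by
    intro w z hw hz
    have h1 : pr n z.1 = α := by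
      have := congrArg Prod.fst hz
      rw [hρ] at this
      simp only [R, hw, q0, hr0] at this
      exact this
    rw [← pr_St (Nat.zero_le n), h1, hα]
  have hfst1 : ∀ (w : ℝ × ℝ) z, w.1 = 1 → ρ n z = R w → pr 0 z.1 = 1 := by
    intro w z hw hz
    have h1 : pr n z.1 = β := by
      have := congrArg Prod.fst hz
      rw [hρ] at this
      simp only [R, hw, q1, hr1] at this
      exact this
    rw [← pr_St (Nat.zero_le n), h1, hβ]
  have hsnd0 : ∀ (w : ℝ × ℝ) z, w.2 = 0 → ρ n z = R w → pr 0 z.2 = 0 := by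
    intro w z hw hz
    have h1 : pr n z.2 = α := by
      have := congrArg Prod.snd hz
      rw [hρ] at this
      simp only [R, hw, q0, hr0] at this
      exact this
    rw [← pr_St (Nat.zero_le n), h1, hα]
  have hsnd1 : ∀ (w : ℝ × ℝ) z, w.2 = 1 → ρ n z = R w → pr 0 z.2 = 1 := by
    intro w z hw hz
    have h1 : pr n z.2 = β := by
      have := congrArg Prod.snd hz
      rw [hρ] at this
      simp only [R, hw, q1, hr1] at this
      exact this
    rw [← pr_St (Nat.zero_le n), h1, hβ]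
  obtain ⟨s, hs, t, ht, h1, h2⟩ := Pool.Agent.Helper627.PM.poincare_miranda 0 1 0 1 zero_le_one
    zero_le_one (fun w => F₂ (R w) + c / 2 * (2 * w.2 - 1)) (fun w => F₁ (h (R w)))
    (by fun_prop) (by fun_prop)
    (by
      intro y _
      obtain ⟨z, hz⟩ := hRex (0, y)
      have a1 := (hRz _ z hz).1
      have a2 := hfst0 _ z rfl hz
      have a3 := zB z (fun hzB => hB0 z hzB a2)
      have a4 := zC z (fun hzC => hC0 z hzC a2)
      have a5 := hcm z
      rw [e1, e2, a3, a4] at a5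
      have a6 : max |0 + 0 - dA z| |(0:ℝ) - 0| = dA z := by
        rw [zero_add, zero_sub, abs_neg, sub_zero, abs_zero, abs_of_nonneg (nA z),
          max_eq_left (nA z)]
      rw [a6] at a5
      rw [e1, a3, a4, abs_lt] at a1
      linarith [a1.2])
    (by
      intro y _
      obtain ⟨z, hz⟩ := hRex (1, y)
      have a1 := (hRz _ z hz).1
      have a2 := hfst1 _ z rfl hz
      have a3 := zA z (fun hzA => hA1 z hzA a2)
      have a5 := hcm z
      rw [e1, e2, a3, sub_zero] at a5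
      have b := nB z
      have b' := nC z
      have a6 : max |dB z + dC z| |dC z - dB z| = dB z + dC z := by
        rw [abs_of_nonneg (by linarith)]
        apply max_eq_left
        rw [abs_le]
        constructor <;> linarith
      rw [a6] at a5
      rw [e1, a3, abs_lt] at a1
      linarith [a1.1])
    (by
      intro x _
      obtain ⟨z, hz⟩ := hRex (x, 0)
      have a1 := (hRz _ z hz).2
      have a2 := hsnd0 _ z rfl hz
      have a4 := zC z (fun hzC => hC1 z hzC a2)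
      rw [e2, a4, abs_lt] at a1
      simp only
      linarith [a1.2, nB z])
    (by
      intro x _
      obtain ⟨z, hz⟩ := hRex (x, 1)
      have a1 := (hRz _ z hz).2
      have a2 := hsnd1 _ z rfl hz
      have a4 := zB z (fun hzB => hB1 z hzB a2)
      rw [e2, a4, abs_lt] at a1
      simp only
      linarith [a1.1, nC z])
  obtain ⟨z, hz⟩ := hRex (s, t)
  obtain ⟨b1, b2⟩ := hRz _ z hz
  have b3 := hcm z
  simp only at h1 h2
  have hF2 : |F₂ (R (s, t))| ≤ c / 2 := by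
    have e : F₂ (R (s, t)) = -(c / 2 * (2 * t - 1)) := by linarith
    have h5 : |2 * t - 1| ≤ 1 := by
      rw [abs_le]
      constructor <;> linarith [ht.1, ht.2]
    rw [e, abs_neg, abs_mul, abs_of_pos (by positivity : (0:ℝ) < c / 2)]
    nlinarith [abs_nonneg (2 * t - 1)]
  rw [h2] at b1
  have b4 : |G₁ z| < c := by
    rw [abs_lt] at b1 ⊢
    constructor <;> linarith [b1.1, b1.2]
  have b5 : |G₂ z| < c := by
    rw [abs_lt] at b2 ⊢
    rw [abs_le] at hF2
    constructor <;> linarith [b2.1, b2.2, hF2.1, hF2.2]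
  have := max_lt b4 b5
  linarith

/-- the square of the pseudo-arc has covering dimension greater than one -/
theorem not_dim_le_one : ¬ (∀ (k : ℕ) (U : Fin k → Set (PA × PA)), (∀ i, IsOpen (U i)) →
    (⋃ i, U i) = Set.univ →
    ∃ V : Fin k → Set (PA × PA), (∀ i, IsOpen (V i)) ∧ (∀ i, V i ⊆ U i) ∧ (⋃ i, V i) = Set.univ ∧
      ∀ x : PA × PA, Set.ncard {i : Fin k | x ∈ V i} ≤ 1 + 1) := by
  intro H
  let U : Fin 3 → Set (PA × PA) :=
    ![{z | (pr 0 z.1 : ℝ) < 2 / 3}, {z | 1 / 3 < (pr 0 z.1 : ℝ) ∧ (pr 0 z.2 : ℝ) < 2 / 3},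
      {z | 1 / 3 < (pr 0 z.1 : ℝ) ∧ 1 / 3 < (pr 0 z.2 : ℝ)}]
  have c1 : Continuous fun z : PA × PA => (pr 0 z.1 : ℝ) := by fun_prop
  have c2 : Continuous fun z : PA × PA => (pr 0 z.2 : ℝ) := by fun_prop
  obtain ⟨V, V1, V2, V3, V4⟩ := H 3 U (by
    intro i
    fin_cases i
    · exact isOpen_lt c1 continuous_const
    · exact (isOpen_lt continuous_const c1).inter (isOpen_lt c2 continuous_const)
    · exact (isOpen_lt continuous_const c1).inter (isOpen_lt continuous_const c2)) (by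
    apply eq_univ_of_forall
    intro z
    by_cases h1 : (pr 0 z.1 : ℝ) < 2 / 3
    · exact mem_iUnion.2 ⟨0, h1⟩
    · by_cases h2 : (pr 0 z.2 : ℝ) < 2 / 3
      · exact mem_iUnion.2 ⟨1, ⟨by linarith, h2⟩⟩
      · exact mem_iUnion.2 ⟨2, ⟨by linarith, by linarith⟩⟩)
  have u0 : ∀ z ∈ V 0, (pr 0 z.1 : ℝ) < 2 / 3 := fun z hz => V2 0 hz
  have u1 : ∀ z ∈ V 1, 1 / 3 < (pr 0 z.1 : ℝ) ∧ (pr 0 z.2 : ℝ) < 2 / 3 := fun z hz => V2 1 hz
  have u2 : ∀ z ∈ V 2, 1 / 3 < (pr 0 z.1 : ℝ) ∧ 1 / 3 < (pr 0 z.2 : ℝ) := fun z hz => V2 2 hz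
  refine no_cover (V1 0) (V1 1) (V1 2) ?_ ?_ ?_ ?_ ?_ ?_ ?_
  · apply eq_univ_of_forall
    intro z
    obtain ⟨i, hi⟩ := mem_iUnion.1 (V3 ▸ mem_univ z : z ∈ ⋃ i, V i)
    fin_cases i
    · exact Or.inl (Or.inl hi)
    · exact Or.inl (Or.inr hi)
    · exact Or.inr hi
  · intro z hz h
    have := u0 z hz
    rw [h] at this
    norm_num at this
  · intro z hz h
    have := (u1 z hz).1
    rw [h] at this
    norm_num at this
  · intro z hz h
    have := (u1 z hz).2
    rw [h] at this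
    norm_num at this
  · intro z hz h
    have := (u2 z hz).1
    rw [h] at this
    norm_num at this
  · intro z hz h
    have := (u2 z hz).2
    rw [h] at this
    norm_num at this
  · rw [eq_empty_iff_forall_notMem]
    rintro z ⟨⟨z0, z1⟩, z2⟩
    have h1 := V4 z
    have h2 : {i : Fin 3 | z ∈ V i} = univ := by
      apply eq_univ_of_forall
      intro i
      fin_cases i
      · exact z0
      · exact z1
      · exact z2
    rw [h2, ncard_univ, Nat.card_fin] at h1
    omega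

end Run7.h149
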