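import Mathlib

/-!
# Towers of doubled continua

Starting from a compact metric space `A` we form the inverse limit of the tower in which the
`n`-th space is doubled along one point `z n` (the set of `(x, s)` with `|s| = φ n x`, where `φ n`
is a distance function to the point), where the points `z n` are dense (with every tail dense).
The limit is the compact set `X w` of `A × (ℕ → ℝ)` below.  When `A` is a continuum the limit is
an indecomposable continuum, and preimages of subcontinua (of products) with full projections are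
continua.
-/

open Set Topology

namespace Run7.h149.Double

/-- A decreasing sequence of compact connected sets has a preconnected intersection. -/
theorem isPreconnected_iInter_nested {X : Type*} [TopologicalSpace X] [T2Space X] (C : ℕ → Set X)
    (hC : ∀ n, IsCompact (C n)) (hconn : ∀ n, IsPreconnected (C n))
    (hanti : ∀ n, C (n + 1) ⊆ C n) : IsPreconnected (⋂ n, C n) := by
  have hPc : IsCompact (⋂ n, C n) :=
    (hC 0).of_isClosed_subset (isClosed_iInter fun n => (hC n).isClosed) (iInter_subset _ 0)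
  rw [isPreconnected_closed_iff]
  intro t t' ht ht' hcov hne hne'
  by_contra hempty
  rw [not_nonempty_iff_eq_empty] at hempty
  have hdisj : Disjoint ((⋂ n, C n) ∩ t) ((⋂ n, C n) ∩ t') := by
    rw [Set.disjoint_left]
    rintro x ⟨hx, hxt⟩ ⟨-, hxt'⟩
    have : x ∈ (⋂ n, C n) ∩ (t ∩ t') := ⟨hx, hxt, hxt'⟩
    rw [hempty] at this
    exact this
  obtain ⟨U, V, hU, hV, hUt, hVt, hUV⟩ :=
    SeparatedNhds.of_isCompact_isCompact (hPc.inter_right ht) (hPc.inter_right ht') hdisj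
  have hanti' : Antitone C := antitone_nat_of_succ_le hanti
  have : ∃ n, C n ⊆ U ∪ V := by
    by_contra hno
    push Not at hno
    have hne2 : (⋂ n, C n \ (U ∪ V)).Nonempty := by
      refine IsCompact.nonempty_iInter_of_sequence_nonempty_isCompact_isClosed
        (fun n => C n \ (U ∪ V)) ?_ ?_ ?_ ?_
      · intro n x hx
        exact ⟨hanti n hx.1, hx.2⟩
      · intro n
        obtain ⟨x, hx, hx'⟩ := Set.not_subset.1 (hno n)
        exact ⟨x, hx, hx'⟩
      · exact (hC 0).diff (hU.union hV)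
      · intro n
        exact ((hC n).diff (hU.union hV)).isClosed
    obtain ⟨x, hx⟩ := hne2
    rw [mem_iInter] at hx
    have hxP : x ∈ ⋂ n, C n := mem_iInter.2 fun n => (hx n).1
    rcases hcov hxP with h | h
    · exact (hx 0).2 (Or.inl (hUt ⟨hxP, h⟩))
    · exact (hx 0).2 (Or.inr (hVt ⟨hxP, h⟩))
  obtain ⟨n, hn⟩ := this
  obtain ⟨x, hxP, hxt⟩ := hne
  obtain ⟨y, hyP, hyt⟩ := hne'
  obtain ⟨z, hz, hzU, hzV⟩ := hconn n U V hU hV hn
    ⟨x, mem_iInter.1 hxP n, hUt ⟨hxP, hxt⟩⟩ ⟨y, mem_iInter.1 hyP n, hVt ⟨hyP, hyt⟩⟩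
  exact (Set.disjoint_left.1 hUV hzU) hzV

variable {A : Type*} [MetricSpace A]

/-- sign attached to a Boolean -/
def sg (b : Bool) : ℝ := if b then 1 else -1

theorem abs_sg (b : Bool) : |sg b| = 1 := by
  cases b <;> simp [sg]

theorem sg_not (b : Bool) : sg (!b) = -sg b := by
  cases b <;> simp [sg]

theorem continuous_sg : Continuous sg := continuous_of_discreteTopology

/-- the coordinates of the point with base point `x.1` and sign sequence `x.2` -/
noncomputable def S (w : ℕ → A × (ℕ → Bool)) (n : ℕ) (x : A × (ℕ → Bool)) : ℝ :=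
  sg (x.2 n) * (dist x.1 (w n).1 + ∑ i : Fin n, |S w i x - S w i (w n)|)
termination_by n
decreasing_by all_goals exact i.2

theorem S_eq (w : ℕ → A × (ℕ → Bool)) (n : ℕ) (x : A × (ℕ → Bool)) :
    S w n x = sg (x.2 n) *
      (dist x.1 (w n).1 + ∑ i ∈ Finset.range n, |S w i x - S w i (w n)|) := by
  rw [S, Finset.sum_range]

/-- the point of `A × ℝ^ℕ` -/
noncomputable def Φ (w : ℕ → A × (ℕ → Bool)) (x : A × (ℕ → Bool)) : A × (ℕ → ℝ) :=
  (x.1, fun n => S w n x)

/-- the branch points -/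
noncomputable def z (w : ℕ → A × (ℕ → Bool)) (n : ℕ) : A × (ℕ → ℝ) := Φ w (w n)

/-- the branching functions -/
noncomputable def φ (w : ℕ → A × (ℕ → Bool)) (n : ℕ) (x : A × (ℕ → ℝ)) : ℝ :=
  dist x.1 (z w n).1 + ∑ i ∈ Finset.range n, |x.2 i - (z w n).2 i|

/-- the limit of the tower -/
def X (w : ℕ → A × (ℕ → Bool)) : Set (A × (ℕ → ℝ)) := {x | ∀ n, |x.2 n| = φ w n x}

variable {w : ℕ → A × (ℕ → Bool)}

theorem φ_nonneg (n : ℕ) (x : A × (ℕ → ℝ)) : 0 ≤ φ w n x :=
  add_nonneg dist_nonneg (Finset.sum_nonneg fun _ _ => abs_nonneg _)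

theorem continuous_φ (n : ℕ) : Continuous (φ w n) := by
  unfold φ
  fun_prop

theorem φ_congr {n : ℕ} {x y : A × (ℕ → ℝ)} (h1 : x.1 = y.1) (h2 : ∀ i < n, x.2 i = y.2 i) :
    φ w n x = φ w n y := by
  unfold φ
  rw [h1]
  congr 1
  refine Finset.sum_congr rfl fun i hi => ?_
  rw [h2 i (Finset.mem_range.1 hi)]

theorem φ_eq_zero {n : ℕ} {x : A × (ℕ → ℝ)} (h : φ w n x = 0) :
    x.1 = (z w n).1 ∧ ∀ i < n, x.2 i = (z w n).2 i := by
  have hs : 0 ≤ ∑ i ∈ Finset.range n, |x.2 i - (z w n).2 i| :=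
    Finset.sum_nonneg fun _ _ => abs_nonneg _
  have h1 : dist x.1 (z w n).1 = 0 := by
    have := dist_nonneg (x := x.1) (y := (z w n).1)
    unfold φ at h
    linarith
  have h2 : ∑ i ∈ Finset.range n, |x.2 i - (z w n).2 i| = 0 := by
    unfold φ at h
    linarith
  refine ⟨dist_eq_zero.1 h1, fun i hi => ?_⟩
  have := (Finset.sum_eq_zero_iff_of_nonneg (fun _ _ => abs_nonneg _)).1 h2 i
    (Finset.mem_range.2 hi)
  exact sub_eq_zero.1 (abs_eq_zero.1 this)

theorem φ_z (n : ℕ) : φ w n (z w n) = 0 := by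
  simp [φ]

theorem φ_Φ (n : ℕ) (x : A × (ℕ → Bool)) :
    φ w n (Φ w x) = dist x.1 (w n).1 + ∑ i ∈ Finset.range n, |S w i x - S w i (w n)| := rfl

theorem Φ_coord (n : ℕ) (x : A × (ℕ → Bool)) : (Φ w x).2 n = sg (x.2 n) * φ w n (Φ w x) := by
  rw [φ_Φ, ← S_eq]
  rfl

theorem Φ_mem (x : A × (ℕ → Bool)) : Φ w x ∈ X w := by
  intro n
  rw [Φ_coord, abs_mul, abs_sg, one_mul, abs_of_nonneg (φ_nonneg _ _)]

theorem z_mem (n : ℕ) : z w n ∈ X w := Φ_mem _

theorem continuous_S (n : ℕ) : Continuous (S w n) := by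
  induction n using Nat.strong_induction_on with
  | _ n ih =>
    have : S w n = fun x => sg (x.2 n) *
      (dist x.1 (w n).1 + ∑ i ∈ Finset.range n, |S w i x - S w i (w n)|) := by
      funext x
      exact S_eq w n x
    rw [this]
    refine (continuous_sg.comp (by fun_prop)).mul (Continuous.add (by fun_prop) ?_)
    refine continuous_finsetSum _ fun i hi => ?_
    exact ((ih i (Finset.mem_range.1 hi)).sub continuous_const).abs

theorem continuous_Φ : Continuous (Φ w) :=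
  continuous_fst.prodMk (continuous_pi fun n => continuous_S n)

theorem exists_Φ {x : A × (ℕ → ℝ)} (hx : x ∈ X w) : ∃ y, Φ w y = x := by
  classical
  refine ⟨(x.1, fun n => decide (0 ≤ x.2 n)), ?_⟩
  refine Prod.ext rfl ?_
  funext n
  induction n using Nat.strong_induction_on with
  | _ n ih =>
    rw [Φ_coord]
    have h1 : φ w n (Φ w (x.1, fun n => decide (0 ≤ x.2 n))) = φ w n x :=
      φ_congr rfl ih
    rw [h1, ← hx n]
    by_cases h : 0 ≤ x.2 n
    · simp [sg, h]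
    · simp only [sg, h, decide_false, Bool.false_eq_true, if_false]
      rw [abs_of_neg (not_le.1 h)]
      ring

theorem range_Φ : range (Φ w) = X w := by
  ext x
  constructor
  · rintro ⟨y, rfl⟩
    exact Φ_mem y
  · intro hx
    obtain ⟨y, hy⟩ := exists_Φ hx
    exact ⟨y, hy⟩

theorem isCompact_X [CompactSpace A] : IsCompact (X w) := by
  rw [← range_Φ]
  exact isCompact_range continuous_Φ

/-- flipping one sign -/
theorem exists_flip {x : A × (ℕ → ℝ)} (hx : x ∈ X w) (n : ℕ) :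
    ∃ y ∈ X w, y.1 = x.1 ∧ (∀ i < n, y.2 i = x.2 i) ∧ y.2 n = -x.2 n := by
  obtain ⟨p, rfl⟩ := exists_Φ hx
  have h1 : ∀ i < n, (Φ w (p.1, Function.update p.2 n (!p.2 n))).2 i = (Φ w p).2 i := by
    intro i
    induction i using Nat.strong_induction_on with
    | _ i ih =>
      intro hi
      rw [Φ_coord, Φ_coord]
      have h2 : φ w i (Φ w (p.1, Function.update p.2 n (!p.2 n))) = φ w i (Φ w p) :=
        φ_congr rfl fun j hj => ih j hj (hj.trans hi)
      rw [h2]
      simp [Function.update_of_ne (ne_of_lt hi)]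
  refine ⟨Φ w (p.1, Function.update p.2 n (!p.2 n)), Φ_mem _, rfl, h1, ?_⟩
  rw [Φ_coord, Φ_coord]
  have h2 : φ w n (Φ w (p.1, Function.update p.2 n (!p.2 n))) = φ w n (Φ w p) :=
    φ_congr rfl h1
  rw [h2]
  simp [sg_not]

/-- a basic neighbourhood -/
theorem exists_basic {O : Set (A × (ℕ → ℝ))} (hO : IsOpen O) {x : A × (ℕ → ℝ)} (hx : x ∈ O) :
    ∃ (n : ℕ) (V : Set (A × (ℕ → ℝ))), IsOpen V ∧ x ∈ V ∧
      ∀ y ∈ V, ∀ y' : A × (ℕ → ℝ), y'.1 = y.1 → (∀ i < n, y'.2 i = y.2 i) → y' ∈ O := by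
  obtain ⟨u, v, hu, hv, hxu, hxv, huv⟩ := isOpen_prod_iff.1 hO x.1 x.2 hx
  obtain ⟨I, t, ht, hIt⟩ := isOpen_pi_iff.1 hv x.2 hxv
  refine ⟨I.sup id + 1, u ×ˢ ((I : Set ℕ).pi t), ?_, ?_, ?_⟩
  · exact hu.prod (isOpen_set_pi I.finite_toSet fun i hi => (ht i hi).1)
  · exact ⟨hxu, fun i hi => (ht i hi).2⟩
  · rintro y ⟨hy1, hy2⟩ y' h1 h2
    refine huv ⟨?_, hIt ?_⟩
    · rw [h1]
      exact hy1
    · intro i hi
      have : i < I.sup id + 1 := Nat.lt_succ_of_le (Finset.le_sup (f := id) hi)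
      rw [h2 i this]
      exact hy2 i hi

/-- The density condition: every tail of `w` is dense. -/
def Good (w : ℕ → A × (ℕ → Bool)) : Prop :=
  ∀ O : Set (A × (ℕ → Bool)), IsOpen O → O.Nonempty → ∀ N, ∃ m ≥ N, w m ∈ O

theorem exists_good [CompactSpace A] [Nonempty A] : ∃ w : ℕ → A × (ℕ → Bool), Good w := by
  refine ⟨fun n => TopologicalSpace.denseSeq (A × (ℕ → Bool)) (Nat.unpair n).1, ?_⟩
  intro O hO hne N
  obtain ⟨k, hk⟩ := (TopologicalSpace.denseRange_denseSeq (A × (ℕ → Bool))).exists_mem_open hO hne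
  refine ⟨Nat.pair k N, Nat.right_le_pair k N, ?_⟩
  simpa using hk

theorem z_dense (hw : Good w) {O : Set (A × (ℕ → ℝ))} (hO : IsOpen O) (hne : (O ∩ X w).Nonempty)
    (N : ℕ) : ∃ m ≥ N, z w m ∈ O := by
  obtain ⟨x, hxO, hx⟩ := hne
  obtain ⟨p, rfl⟩ := exists_Φ hx
  exact hw _ (hO.preimage continuous_Φ) ⟨p, hxO⟩ N

/-- A closed preconnected subset of `X` with nonempty relative interior is all of `X`. -/
theorem eq_of_interior (hw : Good w) {B : Set (A × (ℕ → ℝ))} (hB : IsClosed B) (hBX : B ⊆ X w)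
    (hpre : IsPreconnected B) {O : Set (A × (ℕ → ℝ))} (hO : IsOpen O) (hne : (O ∩ X w).Nonempty)
    (hOB : O ∩ X w ⊆ B) : B = X w := by
  by_contra hneq
  obtain ⟨x₁, hx₁, hx₁B⟩ : ∃ x ∈ X w, x ∉ B := by
    by_contra hcon
    push Not at hcon
    exact hneq (subset_antisymm hBX hcon)
  obtain ⟨n₁, V₁, hV₁, hxV₁, hbas₁⟩ := exists_basic hB.isOpen_compl (x := x₁) hx₁B
  obtain ⟨x₀, hx₀O, hx₀⟩ := hne
  obtain ⟨n₀, V₀, hV₀, hxV₀, hbas₀⟩ := exists_basic hO hx₀O
  obtain ⟨m, hm, hzm⟩ := z_dense hw hV₁ ⟨x₁, hxV₁, hx₁⟩ (max n₀ n₁)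
  have hm0 : n₀ ≤ m := le_trans (le_max_left _ _) hm
  have hm1 : n₁ ≤ m := le_trans (le_max_right _ _) hm
  have hnz : ∀ x ∈ B, x.2 m ≠ 0 := by
    intro x hx h0
    have h1 : φ w m x = 0 := by
      rw [← hBX hx m, h0, abs_zero]
    obtain ⟨h2, h3⟩ := φ_eq_zero h1
    exact hbas₁ _ hzm x h2 (fun i hi => h3 i (lt_of_lt_of_le hi hm1)) hx
  obtain ⟨y, hy, hy1, hy2, hy3⟩ := exists_flip hx₀ m
  have hx₀B : x₀ ∈ B := hOB ⟨hx₀O, hx₀⟩
  have hyB : y ∈ B := by
    refine hOB ⟨hbas₀ x₀ hxV₀ y hy1 (fun i hi => hy2 i (lt_of_lt_of_le hi hm0)), hy⟩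
  have hcont : ContinuousOn (fun x : A × (ℕ → ℝ) => x.2 m) B := by fun_prop
  have himg : IsPreconnected ((fun x : A × (ℕ → ℝ) => x.2 m) '' B) := hpre.image _ hcont
  have hord := himg.ordConnected
  have h0 : (0 : ℝ) ∈ (fun x : A × (ℕ → ℝ) => x.2 m) '' B := by
    rcases le_total (x₀.2 m) 0 with h | h
    · exact hord.out ⟨x₀, hx₀B, rfl⟩ ⟨y, hyB, rfl⟩ ⟨h, by simp only [hy3]; linarith⟩
    · exact hord.out ⟨y, hyB, rfl⟩ ⟨x₀, hx₀B, rfl⟩ ⟨by simp only [hy3]; linarith, h⟩
  obtain ⟨x, hx, hx0⟩ := h0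
  exact hnz x hx hx0

section Connected

variable {F : Type*} [TopologicalSpace F]

/-- the approximations -/
def C (w : ℕ → A × (ℕ → Bool)) (D : ℝ) (W : Set (A × F)) (n : ℕ) : Set ((A × (ℕ → ℝ)) × F) :=
  {p | (p.1.1, p.2) ∈ W ∧ (∀ i < n, |p.1.2 i| = φ w i p.1) ∧ ∀ i, |p.1.2 i| ≤ D * 3 ^ i}

theorem sum_pow (D : ℝ) (n : ℕ) :
    D + ∑ i ∈ Finset.range n, (D * 3 ^ i + D * 3 ^ i) = D * 3 ^ n := by
  induction n with
  | zero => simp
  | succ n ih =>
    rw [Finset.sum_range_succ, ← add_assoc, ih, pow_succ]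
    ring

theorem X_bound {D : ℝ} (hD : ∀ a b : A, dist a b ≤ D) {x : A × (ℕ → ℝ)} (n : ℕ)
    (hx : ∀ i < n, |x.2 i| ≤ D * 3 ^ i) (hz : ∀ i < n, |(z w n).2 i| ≤ D * 3 ^ i) :
    φ w n x ≤ D * 3 ^ n := by
  rw [← sum_pow]
  unfold φ
  refine add_le_add (hD _ _) (Finset.sum_le_sum fun i hi => ?_)
  have hi' := Finset.mem_range.1 hi
  exact (abs_sub _ _).trans (add_le_add (hx i hi') (hz i hi'))

theorem mem_X_bound {D : ℝ} (hD : ∀ a b : A, dist a b ≤ D) {x : A × (ℕ → ℝ)} (hx : x ∈ X w)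
    (n : ℕ) : |x.2 n| ≤ D * 3 ^ n := by
  induction n using Nat.strong_induction_on generalizing x with
  | _ n ih =>
    rw [hx n]
    exact X_bound hD n (fun i hi => ih i hi hx) (fun i hi => ih i hi (z_mem n))

theorem φ_bound {D : ℝ} (hD : ∀ a b : A, dist a b ≤ D) {x : A × (ℕ → ℝ)} (n : ℕ)
    (hx : ∀ i < n, |x.2 i| ≤ D * 3 ^ i) : φ w n x ≤ D * 3 ^ n :=
  X_bound hD n hx fun i _ => mem_X_bound hD (z_mem n) i

omit [TopologicalSpace F] in
theorem C_anti (D : ℝ) (W : Set (A × F)) (n : ℕ) : C w D W (n + 1) ⊆ C w D W n :=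
  fun _ hp => ⟨hp.1, fun i hi => hp.2.1 i (hi.trans (Nat.lt_succ_self n)), hp.2.2⟩

omit [TopologicalSpace F] in
theorem C_zero_eq (D : ℝ) (W : Set (A × F)) :
    C w D W 0 = (fun q : (A × F) × (ℕ → ℝ) => ((q.1.1, q.2), q.1.2)) ''
      (W ×ˢ (univ.pi fun i => Icc (-(D * 3 ^ i)) (D * 3 ^ i))) := by
  ext p
  constructor
  · rintro ⟨h1, -, h3⟩
    exact ⟨((p.1.1, p.2), p.1.2), ⟨h1, fun i _ => abs_le.1 (h3 i)⟩, rfl⟩
  · rintro ⟨q, ⟨h1, h2⟩, rfl⟩
    exact ⟨h1, fun i hi => absurd hi (Nat.not_lt_zero i), fun i => abs_le.2 (h2 i (mem_univ i))⟩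

theorem isClosed_cond (n : ℕ) :
    IsClosed {p : (A × (ℕ → ℝ)) × F | ∀ i < n, |p.1.2 i| = φ w i p.1} := by
  have : {p : (A × (ℕ → ℝ)) × F | ∀ i < n, |p.1.2 i| = φ w i p.1} =
      ⋂ i, ⋂ _ : i < n, {p | |p.1.2 i| = φ w i p.1} := by
    ext p
    simp
  rw [this]
  refine isClosed_iInter fun i => isClosed_iInter fun _ => isClosed_eq (by fun_prop) ?_
  exact (continuous_φ i).comp continuous_fst

theorem isCompact_C {D : ℝ} {W : Set (A × F)} (hW : IsCompact W) (n : ℕ) :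
    IsCompact (C w D W n) := by
  have h0 : IsCompact (C w D W 0) := by
    rw [C_zero_eq]
    refine (hW.prod (isCompact_univ_pi fun i => isCompact_Icc)).image ?_
    fun_prop
  have : C w D W n = C w D W 0 ∩ {p | ∀ i < n, |p.1.2 i| = φ w i p.1} := by
    ext p
    constructor
    · rintro ⟨h1, h2, h3⟩
      exact ⟨⟨h1, fun i hi => absurd hi (Nat.not_lt_zero i), h3⟩, h2⟩
    · rintro ⟨⟨h1, _, h3⟩, h2⟩
      exact ⟨h1, h2, h3⟩
  rw [this]
  exact h0.inter_right (isClosed_cond n)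

theorem isPreconnected_C {D : ℝ} (hD : ∀ a b : A, dist a b ≤ D) {W : Set (A × F)}
    (hWc : IsPreconnected W) (hfull : ∀ a, ∃ y, (a, y) ∈ W) (n : ℕ) :
    IsPreconnected (C w D W n) := by
  induction n with
  | zero =>
    rw [C_zero_eq]
    refine (hWc.prod (isPreconnected_univ_pi fun i => isPreconnected_Icc)).image _ ?_
    fun_prop
  | succ n ih =>
    -- the two branches
    let g : ℝ → (A × (ℕ → ℝ)) × F → (A × (ℕ → ℝ)) × F := fun s p =>
      ((p.1.1, Function.update p.1.2 n (s * φ w n p.1)), p.2)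
    have hgcont : ∀ s, Continuous (g s) := by
      intro s
      have h1 : Continuous fun p : (A × (ℕ → ℝ)) × F => s * φ w n p.1 :=
        continuous_const.mul ((continuous_φ n).comp continuous_fst)
      have h2 : Continuous fun p : (A × (ℕ → ℝ)) × F =>
          Function.update p.1.2 n (s * φ w n p.1) :=
        Continuous.update (by fun_prop) n h1
      exact (Continuous.prodMk (by fun_prop) h2).prodMk continuous_snd
    have hgφ : ∀ s p, ∀ i ≤ n, φ w i (g s p).1 = φ w i p.1 := by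
      intro s p i hi
      refine φ_congr rfl fun j hj => ?_
      simp only [g]
      rw [Function.update_of_ne (by omega)]
    have hg : ∀ s, |s| = 1 → ∀ p ∈ C w D W n, g s p ∈ C w D W (n + 1) := by
      intro s hs p hp
      refine ⟨hp.1, fun i hi => ?_, fun i => ?_⟩
      · rw [hgφ s p i (Nat.lt_succ_iff.1 hi)]
        rcases Nat.lt_succ_iff_lt_or_eq.1 hi with h | rfl
        · simp only [g]
          rw [Function.update_of_ne (ne_of_lt h)]
          exact hp.2.1 i h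
        · simp only [g, Function.update_self]
          rw [abs_mul, hs, one_mul, abs_of_nonneg (φ_nonneg _ _)]
      · by_cases h : i = n
        · subst h
          simp only [g, Function.update_self]
          rw [abs_mul, hs, one_mul, abs_of_nonneg (φ_nonneg _ _)]
          exact φ_bound hD i fun j _ => hp.2.2 j
        · simp only [g]
          rw [Function.update_of_ne h]
          exact hp.2.2 i
    have hunion : C w D W (n + 1) = g 1 '' C w D W n ∪ g (-1) '' C w D W n := by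
      refine subset_antisymm ?_ ?_
      · intro p hp
        have hp' := C_anti D W n hp
        have h1 := hp.2.1 n (Nat.lt_succ_self n)
        rcases abs_eq_abs.1 (h1.trans (abs_of_nonneg (φ_nonneg n p.1)).symm) with h | h
        · left
          refine ⟨p, hp', ?_⟩
          simp only [g]
          rw [one_mul, ← h, Function.update_eq_self]
        · right
          refine ⟨p, hp', ?_⟩
          simp only [g]
          rw [neg_one_mul, ← h, Function.update_eq_self]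
      · rintro p (⟨q, hq, rfl⟩ | ⟨q, hq, rfl⟩)
        · exact hg 1 (by simp) q hq
        · exact hg (-1) (by simp) q hq
    rw [hunion]
    obtain ⟨y, hy⟩ := hfull (z w n).1
    have hmem : (z w n, y) ∈ C w D W n :=
      ⟨hy, fun i _ => z_mem n i, fun i => mem_X_bound hD (z_mem n) i⟩
    have heq : g 1 (z w n, y) = g (-1) (z w n, y) := by
      simp only [g, φ_z, mul_zero]
    refine IsPreconnected.union (g 1 (z w n, y)) ⟨_, hmem, rfl⟩ ⟨_, hmem, heq.symm⟩ ?_ ?_
    · exact ih.image _ (hgcont 1).continuousOn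
    · exact ih.image _ (hgcont (-1)).continuousOn

/-- Preimages of compact connected sets with full projection are connected. -/
theorem isPreconnected_lift [CompactSpace A] [T2Space F] {W : Set (A × F)} (hW : IsCompact W)
    (hWc : IsPreconnected W) (hfull : ∀ a, ∃ y, (a, y) ∈ W) :
    IsPreconnected {p : (A × (ℕ → ℝ)) × F | p.1 ∈ X w ∧ (p.1.1, p.2) ∈ W} := by
  obtain ⟨D, hD⟩ : ∃ D : ℝ, ∀ a b : A, dist a b ≤ D := by
    obtain ⟨D, hD⟩ := (Metric.isBounded_iff.1 (isCompact_univ (X := A)).isBounded)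
    exact ⟨D, fun a b => hD (mem_univ a) (mem_univ b)⟩
  have : {p : (A × (ℕ → ℝ)) × F | p.1 ∈ X w ∧ (p.1.1, p.2) ∈ W} = ⋂ n, C w D W n := by
    ext p
    rw [mem_iInter]
    constructor
    · rintro ⟨h1, h2⟩ n
      exact ⟨h2, fun i _ => h1 i, fun i => mem_X_bound hD h1 i⟩
    · intro h
      exact ⟨fun n => (h (n + 1)).2.1 n (Nat.lt_succ_self n), (h 0).1⟩
  rw [this]
  exact isPreconnected_iInter_nested _ (fun n => isCompact_C hW n)
    (fun n => isPreconnected_C hD hWc hfull n) (fun n => C_anti D W n)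

end Connected

end Run7.h149.Double
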