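import Mathlib
import Pool.Agent.Run7.h149.Hom

/-! Trivial shape of the square of the pseudo-arc. -/

set_option autoImplicit false

open Set Topology unitInterval

namespace Run7.h149

/-- the Hilbert cube -/
abbrev QQ : Type := ℕ → I

/-- the approximating contractible sets -/
def KN (N : ℕ) : Set QQ := {x | ∀ k < N, (gg k).1 (x (k + 1)) = x k}

lemma isClosed_KN (N : ℕ) : IsClosed (KN N) := by
  have : KN N = ⋂ k, ⋂ (_ : k < N), {x : QQ | (gg k).1 (x (k + 1)) = x k} := by
    ext x; simp [KN]
  rw [this]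
  refine isClosed_iInter fun k => isClosed_iInter fun _ => ?_
  exact isClosed_eq (by fun_prop) (by fun_prop)

lemma KN_anti {N M : ℕ} (h : N ≤ M) : KN M ⊆ KN N := fun _ hx k hk => hx k (by omega)

lemma mem_KN (x : PA) (N : ℕ) : x.1 ∈ KN N := fun k _ => x.2 k

lemma mem_PA_of_KN {x : QQ} (h : ∀ N, x ∈ KN N) : ∃ y : PA, y.1 = x :=
  ⟨⟨x, fun n => h (n + 1) n (Nat.lt_succ_self n)⟩, rfl⟩

/-- the retraction onto `KN N` -/
noncomputable def rN (N : ℕ) (x : QQ) : QQ := fun k => if k ≤ N then (St N k).1 (x N) else x k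

lemma continuous_rN (N : ℕ) : Continuous (rN N) := by
  refine continuous_pi fun k => ?_
  unfold rN
  by_cases h : k ≤ N
  · simp only [h, if_true]
    fun_prop
  · simp only [h, if_false]
    fun_prop

lemma rN_mem (N : ℕ) (x : QQ) : rN N x ∈ KN N := by
  intro k hk
  unfold rN
  rw [if_pos (show k + 1 ≤ N by omega), if_pos hk.le]
  exact St_pred hk _

lemma rN_PA (N : ℕ) (x : PA) : rN N x.1 = x.1 := by
  funext k
  unfold rN
  split_ifs with h
  · exact pr_St h x
  · rfl

/-- linear interpolation in the unit interval -/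
noncomputable def lerp (s a b : I) : I := ⟨(1 - s) * a + s * b, by
  have h1 := s.2.1; have h2 := s.2.2; have h3 := a.2.1; have h4 := a.2.2
  have h5 := b.2.1; have h6 := b.2.2
  constructor
  · have : 0 ≤ 1 - (s : ℝ) := by linarith
    positivity
  · nlinarith⟩

lemma continuous_lerp {X : Type} [TopologicalSpace X] {s a b : X → I} (hs : Continuous s)
    (ha : Continuous a) (hb : Continuous b) : Continuous fun x => lerp (s x) (a x) (b x) := by
  unfold lerp
  fun_prop

lemma lerp_zero (a b : I) : lerp 0 a b = a := by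
  apply Subtype.ext; simp [lerp]

lemma lerp_one (a b : I) : lerp 1 a b = b := by
  apply Subtype.ext; simp [lerp]

lemma lerp_same (s a : I) : lerp s a a = a := by
  apply Subtype.ext; simp [lerp]; ring

/-- first phase of the time -/
noncomputable def tA (t : I) : I := ⟨min (2 * t) 1, le_min (by linarith [t.2.1]) zero_le_one,
  min_le_right _ _⟩

/-- second phase of the time -/
noncomputable def tB (t : I) : I := ⟨max (2 * t - 1) 0, le_max_right _ _,
  max_le (by linarith [t.2.2]) zero_le_one⟩

lemma continuous_tA : Continuous tA := by unfold tA; fun_prop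
lemma continuous_tB : Continuous tB := by unfold tB; fun_prop

/-- the deformation of the Hilbert cube -/
noncomputable def HH (N : ℕ) (x : QQ) (t : I) : QQ :=
  fun k => lerp (tA t) (x k) (rN N (fun j => lerp (tB t) (x j) 0) k)

lemma continuous_HH (N : ℕ) : Continuous fun z : QQ × I => HH N z.1 z.2 := by
  refine continuous_pi fun k => ?_
  unfold HH
  refine continuous_lerp (continuous_tA.comp continuous_snd) (by fun_prop) ?_
  have h1 : Continuous fun z : QQ × I => ((fun j => lerp (tB z.2) (z.1 j) 0) : QQ) :=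
    continuous_pi fun j => continuous_lerp (continuous_tB.comp continuous_snd) (by fun_prop)
      continuous_const
  exact (continuous_apply k).comp ((continuous_rN N).comp h1)

lemma HH_zero (N : ℕ) (x : QQ) : HH N x 0 = x := by
  funext k
  unfold HH
  have : tA 0 = 0 := by apply Subtype.ext; simp [tA]
  rw [this, lerp_zero]

lemma HH_one (N : ℕ) (x : QQ) : HH N x 1 = rN N (fun _ => 0) := by
  funext k
  unfold HH
  have h1 : tA 1 = 1 := by apply Subtype.ext; simp [tA]
  have h2 : tB 1 = 1 := by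
    apply Subtype.ext
    show max (2 * ((1 : I) : ℝ) - 1) 0 = ((1 : I) : ℝ)
    norm_num
  rw [h1, lerp_one, h2]
  simp only [lerp_one]

lemma HH_PA (N : ℕ) (x : PA) (t : I) : HH N x.1 t ∈ KN N := by
  rcases le_total (t : ℝ) (1 / 2) with h | h
  · have h2 : tB t = 0 := by
      apply Subtype.ext
      show max (2 * (t : ℝ) - 1) 0 = ((0 : I) : ℝ)
      rw [max_eq_right (by linarith)]
      simp
    have : HH N x.1 t = x.1 := by
      funext k
      unfold HH
      rw [h2]
      simp only [lerp_zero]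
      rw [rN_PA, lerp_same]
    rw [this]
    exact mem_KN x N
  · have h1 : tA t = 1 := by
      apply Subtype.ext
      show min (2 * (t : ℝ)) 1 = ((1 : I) : ℝ)
      rw [min_eq_right (by linarith)]
      simp
    have : HH N x.1 t = rN N (fun j => lerp (tB t) (x.1 j) 0) := by
      funext k
      unfold HH
      rw [h1, lerp_one]
    rw [this]
    exact rN_mem N _

/-- the square of the Hilbert cube is the Hilbert cube -/
noncomputable def Phi : QQ × QQ ≃ₜ QQ :=
  (Homeomorph.sumArrowHomeomorphProdArrow (ι := ℕ) (ι' := ℕ) (X := I)).symm.trans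
    (Homeomorph.piCongrLeft (Y := fun _ : ℕ => I) Equiv.natSumNatEquivNat)

/-- the embedding of the square of the pseudo-arc -/
noncomputable def emb (z : PA × PA) : QQ := Phi (z.1.1, z.2.1)

lemma isEmbedding_emb : IsEmbedding emb := by
  have h1 : IsEmbedding (fun z : PA × PA => (z.1.1, z.2.1)) :=
    IsEmbedding.prodMap IsEmbedding.subtypeVal IsEmbedding.subtypeVal
  exact Phi.isEmbedding.comp h1

theorem shape : ∃ e : PA × PA → (ℕ → unitInterval), Topology.IsEmbedding e ∧
      ∀ U : Set (ℕ → unitInterval), IsOpen U → Set.range e ⊆ U →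
        ∃ V : Set (ℕ → unitInterval), IsOpen V ∧ Set.range e ⊆ V ∧
          ∃ h : V ⊆ U, (ContinuousMap.inclusion h).Nullhomotopic := by
  refine ⟨emb, isEmbedding_emb, fun U hU hrU => ?_⟩
  set U' : Set (QQ × QQ) := Phi ⁻¹' U with hU'
  have hU'o : IsOpen U' := hU.preimage Phi.continuous
  obtain ⟨N, hN⟩ : ∃ N, KN N ×ˢ KN N ⊆ U' := by
    refine exists_subset_nhds_of_isCompact' (V := fun N => KN N ×ˢ KN N) ?_
      (fun N => ((isClosed_KN N).prod (isClosed_KN N)).isCompact)
      (fun N => (isClosed_KN N).prod (isClosed_KN N)) ?_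
    · intro n m
      exact ⟨max n m, prod_mono (KN_anti (le_max_left _ _)) (KN_anti (le_max_left _ _)),
        prod_mono (KN_anti (le_max_right _ _)) (KN_anti (le_max_right _ _))⟩
    · rintro ⟨x, y⟩ hxy
      have h1 := mem_iInter.1 hxy
      obtain ⟨x', rfl⟩ := mem_PA_of_KN fun N => (h1 N).1
      obtain ⟨y', rfl⟩ := mem_PA_of_KN fun N => (h1 N).2
      exact hU'o.mem_nhds (hrU ⟨(x', y'), rfl⟩)
  -- the deformation of the square
  let G : (QQ × QQ) × I → QQ × QQ := fun z => (HH N z.1.1 z.2, HH N z.1.2 z.2)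
  have hG : Continuous G := by
    have h := continuous_HH N
    exact (h.comp (by fun_prop : Continuous fun z : (QQ × QQ) × I => (z.1.1, z.2))).prodMk
      (h.comp (by fun_prop : Continuous fun z : (QQ × QQ) × I => (z.1.2, z.2)))
  let V' : Set (QQ × QQ) := {z | ∀ t : I, G (z, t) ∈ U'}
  have hV'o : IsOpen V' := by
    have : V' = (Prod.fst '' (G ⁻¹' U'ᶜ))ᶜ := by
      ext z
      constructor
      · rintro h ⟨⟨z', t⟩, h1, rfl⟩
        exact h1 (h t)
      · intro h t
        by_contra hcon
        exact h ⟨(z, t), hcon, rfl⟩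
    rw [this, isOpen_compl_iff]
    exact ((hU'o.isClosed_compl.preimage hG).isCompact.image continuous_fst).isClosed
  have hPV : ∀ z : PA × PA, ((z.1.1, z.2.1) : QQ × QQ) ∈ V' := fun z t =>
    hN ⟨HH_PA N z.1 t, HH_PA N z.2 t⟩
  let V : Set QQ := Phi.symm ⁻¹' V'
  have hVU : V ⊆ U := by
    intro z hz
    have h1 : G (Phi.symm z, 0) ∈ U' := hz 0
    have h2 : G (Phi.symm z, 0) = Phi.symm z := by
      show (HH N (Phi.symm z).1 0, HH N (Phi.symm z).2 0) = _
      rw [HH_zero, HH_zero]
    rw [h2] at h1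
    have h3 : Phi (Phi.symm z) ∈ U := h1
    rwa [Homeomorph.apply_symm_apply] at h3
  have hconst : ∀ z : QQ × QQ, G (z, 1) = (rN N (fun _ => 0), rN N (fun _ => 0)) := by
    intro z
    show (HH N z.1 1, HH N z.2 1) = _
    rw [HH_one, HH_one]
  have hcU : Phi (rN N (fun _ => 0), rN N (fun _ => 0)) ∈ U :=
    hN ⟨rN_mem N _, rN_mem N _⟩
  refine ⟨V, hV'o.preimage Phi.symm.continuous, ?_, hVU, ⟨⟨_, hcU⟩, ⟨?_⟩⟩⟩
  · rintro _ ⟨z, rfl⟩
    show Phi.symm (Phi (z.1.1, z.2.1)) ∈ V'
    rw [Homeomorph.symm_apply_apply]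
    exact hPV z
  · refine ⟨⟨fun q => ⟨Phi (G (Phi.symm q.2.1, q.1)), q.2.2 q.1⟩, ?_⟩, ?_, ?_⟩
    · refine Continuous.subtype_mk ?_ _
      exact Phi.continuous.comp (hG.comp (by fun_prop))
    · rintro ⟨z, hz⟩
      apply Subtype.ext
      show Phi (HH N (Phi.symm z).1 0, HH N (Phi.symm z).2 0) = z
      rw [HH_zero, HH_zero]
      exact Phi.apply_symm_apply z
    · rintro ⟨z, hz⟩
      apply Subtype.ext
      show Phi (G (Phi.symm z, 1)) = _
      rw [hconst]
      rfl

end Run7.h149
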